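import Pool.Agent.H41.Shuf.Inj

open Finset

namespace Pool.Agent.H41.Shuf

/-- weight of a sequence of steps -/
noncomputable def wt (k : ℕ) : List Bool → ℝ
  | [] => 1
  | false :: P => wt k P
  | true :: P => (if P.head? = some true then (k : ℝ) else k - 1) * wt k P

/-- number of steps of `P` at which a coincidence is forbidden by the present marks -/
def Blocked (c : ℕ) : List Bool → Bool → List Bool → ℕ
  | _, _, [] => 0
  | m, u, true :: P => (if u = true ∨ true ∈ m.take c then 1 else 0) + Blocked c (m ++ [false]) u P
  | m, _, false :: P => Blocked c m.tail false P

/-- bounds for the length of the queue and for the number of consecutive `true` -/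
def Good (c : ℕ) : ℕ → ℕ → List Bool → Prop
  | _, _, [] => True
  | h, e, true :: P => 2 ≤ h ∧ e + 1 < c ∧ Good c (h + 1) (e + 1) P
  | h, _, false :: P => 1 ≤ h ∧ Good c (h - 1) 0 P

/-- number of steps of `P` blocked by one mark at position `p` -/
def Sc (c : ℕ) : ℕ → List Bool → ℕ
  | _, [] => 0
  | p, true :: P => (if p < c then 1 else 0) + Sc c p P
  | 0, false :: _ => 0
  | p + 1, false :: P => Sc c p P

theorem Sc_le {c : ℕ} : ∀ (P : List Bool) (p h e : ℕ), Good c h e P → e ≤ c →
    (p < c → Sc c p P ≤ p * c + (c - e)) ∧ (c ≤ p → Sc c p P ≤ c * c) := by
  intro P
  induction P with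
  | nil => intro p h e _ _; simp [Sc]
  | cons s P ih =>
    intro p h e hg he
    cases s with
    | true =>
      obtain ⟨_, h2, h3⟩ := hg
      obtain ⟨i1, i2⟩ := ih p _ _ h3 (by omega)
      constructor
      · intro hp
        have := i1 hp
        simp only [Sc, hp, if_true]
        omega
      · intro hp
        have := i2 hp
        simp only [Sc, not_lt.mpr hp, if_false]
        omega
    | false =>
      obtain ⟨_, h3⟩ := hg
      cases p with
      | zero => simp [Sc]
      | succ p =>
        obtain ⟨i1, i2⟩ := ih p _ _ h3 (by omega)
        constructor
        · intro hp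
          have := i1 (by omega)
          simp only [Sc]
          have : p * c + (c - 0) = (p + 1) * c := by simp; ring
          omega
        · intro hp
          simp only [Sc]
          rcases Nat.lt_or_ge p c with h | h
          · have h1 := i1 h
            have : p * c + (c - 0) = (p + 1) * c := by simp; ring
            have h4 : (p + 1) * c ≤ c * c := Nat.mul_le_mul_right c (by omega)
            omega
          · exact i2 h

theorem Sc_le' {c : ℕ} {P : List Bool} {p h e : ℕ} (hg : Good c h e P) (he : e ≤ c) :
    Sc c p P ≤ c * c := by
  obtain ⟨h1, h2⟩ := Sc_le P p h e hg he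
  rcases Nat.lt_or_ge p c with h | h
  · have h3 := h1 h
    have : p * c + (c - e) ≤ (p + 1) * c := by
      have : (p + 1) * c = p * c + c := by ring
      omega
    have h4 : (p + 1) * c ≤ c * c := Nat.mul_le_mul_right c (by omega)
    omega
  · exact h2 h

theorem blocked_mark {c : ℕ} : ∀ (P : List Bool) (m1 m2 : List Bool) (u : Bool),
    Blocked c (m1 ++ true :: m2) u P ≤ Blocked c (m1 ++ false :: m2) u P + Sc c m1.length P := by
  intro P
  induction P with
  | nil => intro m1 m2 u; simp [Blocked]
  | cons s P ih =>
    intro m1 m2 u
    cases s with
    | true =>
      simp only [Blocked, Sc]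
      have h1 := ih m1 (m2 ++ [false]) u
      simp only [List.append_assoc, List.cons_append] at h1 ⊢
      have h2 : (if u = true ∨ true ∈ (m1 ++ true :: m2).take c then 1 else 0) ≤
          (if u = true ∨ true ∈ (m1 ++ false :: m2).take c then 1 else 0) +
          (if m1.length < c then 1 else 0) := by
        by_cases hm : m1.length < c
        · simp only [hm, if_true]
          split_ifs <;> omega
        · have e1 : (m1 ++ true :: m2).take c = m1.take c := by
            rw [List.take_append_of_le_length (by omega)]
          have e2 : (m1 ++ false :: m2).take c = m1.take c := by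
            rw [List.take_append_of_le_length (by omega)]
          rw [e1, e2]
          omega
      omega
    | false =>
      cases m1 with
      | nil => simp [Blocked]
      | cons a m1 =>
        simp only [Blocked, Sc, List.cons_append, List.tail_cons, List.length_cons]
        exact ih m1 m2 false

theorem blocked_used {c : ℕ} : ∀ (P : List Bool) (m : List Bool) (u : Bool) (h e : ℕ),
    Good c h e P → e ≤ c → Blocked c m true P ≤ Blocked c m u P + (c - e) := by
  intro P
  induction P with
  | nil => intro m u h e _ _; simp [Blocked]
  | cons s P ih =>
    intro m u h e hg he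
    cases s with
    | true =>
      obtain ⟨_, h2, h3⟩ := hg
      have h1 := ih (m ++ [false]) u _ _ h3 (by omega)
      simp only [Blocked, true_or, if_true]
      omega
    | false =>
      simp [Blocked]

theorem blocked_step {c : ℕ} {P m : List Bool} {u : Bool} {h e : ℕ} (hg : Good c h e P)
    (he : e ≤ c) :
    Blocked c (m ++ [true]) true P ≤ Blocked c (m ++ [false]) u P + (c * c + c) := by
  have h1 := blocked_used P (m ++ [true]) u h e hg he
  have h2 := blocked_mark (c := c) P m [] u
  have h3 := Sc_le' (p := m.length) hg he
  omega

variable {k : ℕ}

/-- the admissible runs with a given sequence of steps -/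
def runs (c : ℕ) : Cfg (Fin k) → List Bool → Finset (List (Bool × Fin k))
  | _, [] => {[]}
  | C, true :: P => univ.biUnion fun x =>
      if OkE c C x then (runs c (stepE c C x) P).image (fun l => (true, x) :: l) else ∅
  | C, false :: P => univ.biUnion fun x =>
      if OkD C x then (runs c (stepD C x) P).image (fun l => (false, x) :: l) else ∅

theorem mem_runs {c : ℕ} : ∀ (P : List Bool) (C : Cfg (Fin k)) (l : List (Bool × Fin k)),
    l ∈ runs c C P → Valid c C l ∧ l.map Prod.fst = P := by
  intro P
  induction P with
  | nil =>
    intro C l hl
    simp only [runs, mem_singleton] at hl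
    subst hl
    exact ⟨trivial, rfl⟩
  | cons s P ih =>
    intro C l hl
    cases s with
    | true =>
      simp only [runs, mem_biUnion, mem_univ, true_and] at hl
      obtain ⟨x, hx⟩ := hl
      split_ifs at hx with hok
      · obtain ⟨l', hl', rfl⟩ := mem_image.mp hx
        obtain ⟨i1, i2⟩ := ih _ _ hl'
        exact ⟨⟨hok, i1⟩, by simp [i2]⟩
      · simp at hx
    | false =>
      simp only [runs, mem_biUnion, mem_univ, true_and] at hl
      obtain ⟨x, hx⟩ := hl
      split_ifs at hx with hok
      · obtain ⟨l', hl', rfl⟩ := mem_image.mp hx
        obtain ⟨i1, i2⟩ := ih _ _ hl'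
        exact ⟨⟨hok, i1⟩, by simp [i2]⟩
      · simp at hx

theorem card_biUnion_cons (s : Bool) (p : Fin k → Prop) [DecidablePred p]
    (R : Fin k → Finset (List (Bool × Fin k))) :
    (univ.biUnion fun x => if p x then (R x).image (fun l => (s, x) :: l) else ∅).card =
      ∑ x, if p x then (R x).card else 0 := by
  rw [card_biUnion]
  · apply sum_congr rfl
    intro x _
    split_ifs
    · rw [card_image_of_injective]
      intro a b hab
      simpa using hab
    · simp
  · intro x _ y _ hxy
    rw [Function.onFun, disjoint_left]
    intro l hl hl'
    split_ifs at hl with h1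
    · split_ifs at hl' with h2
      · obtain ⟨a, _, rfl⟩ := mem_image.mp hl
        obtain ⟨b, _, hb⟩ := mem_image.mp hl'
        simp only [List.cons.injEq, Prod.mk.injEq, true_and] at hb
        exact hxy hb.1.symm
      · simp at hl'
    · simp at hl

theorem card_runs_true (c : ℕ) (C : Cfg (Fin k)) (P : List Bool) :
    (runs c C (true :: P)).card = ∑ x, if OkE c C x then (runs c (stepE c C x) P).card else 0 :=
  card_biUnion_cons true _ _

theorem card_runs_false (c : ℕ) (C : Cfg (Fin k)) (P : List Bool) :
    (runs c C (false :: P)).card = ∑ x, if OkD C x then (runs c (stepD C x) P).card else 0 :=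
  card_biUnion_cons false _ _

theorem card_coin_le (c : ℕ) (C : Cfg (Fin k)) :
    (univ.filter fun x => Coin c C x).card ≤ c + 2 := by
  have hsub : (univ.filter fun x => Coin c C x) ⊆
      (letters (C.q.take c)).toFinset ∪ (C.d.toFinset ∪ (letters C.q).getLast?.toFinset) := by
    intro x hx
    simp only [mem_filter, mem_univ, true_and, Coin] at hx
    simp only [mem_union, List.mem_toFinset, Option.mem_toFinset, Option.mem_def]
    exact hx
  refine (card_le_card hsub).trans ?_
  refine (card_union_le _ _).trans ?_
  have h1 : (letters (C.q.take c)).toFinset.card ≤ c := by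
    refine (List.toFinset_card_le _).trans ?_
    simp [letters]
  have h2 : (C.d.toFinset ∪ (letters C.q).getLast?.toFinset).card ≤ 2 := by
    refine (card_union_le _ _).trans ?_
    have h3 : ∀ o : Option (Fin k), o.toFinset.card ≤ 1 := by
      intro o; cases o <;> simp
    have := h3 C.d
    have := h3 (letters C.q).getLast?
    omega
  omega

theorem head_coin {c : ℕ} (hc : 1 ≤ c) {C : Cfg (Fin k)} {x : Fin k}
    (hx : (letters C.q).head? = some x) : Coin c C x := by
  left
  obtain ⟨c', rfl⟩ : ∃ c', c = c' + 1 := ⟨c - 1, by omega⟩
  cases hq : C.q with
  | nil => rw [hq] at hx; simp [letters] at hx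
  | cons z q =>
    rw [hq] at hx
    simp [letters] at hx
    simp [letters, hx]

theorem marked_iff {c : ℕ} {q : List (Fin k × Bool)} :
    true ∈ (q.map Prod.snd).take c ↔ Marked (q.take c) := by
  rw [← List.map_take, List.mem_map]
  unfold Marked
  rfl

theorem wt_nonneg (hk : 1 ≤ k) : ∀ P : List Bool, 0 ≤ wt k P := by
  intro P
  have hk' : (1 : ℝ) ≤ k := by exact_mod_cast hk
  induction P with
  | nil => simp [wt]
  | cons s P ih =>
    cases s with
    | true =>
      simp only [wt]
      split_ifs
      · positivity
      · exact mul_nonneg (by linarith) ih
    | false => simpa [wt] using ih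

/-- Lower bound for the number of admissible letterings. -/
theorem card_runs_ge {c : ℕ} (hc : 3 ≤ c) (hk : c + 2 < k) {θ η : ℝ}
    (hθ : θ = (k - (c + 2)) / k) (hη : (c + 2) ^ 2 * (c * c + c) ≤ η * (k * (k - 1)))
    (hη1 : η ≤ 1) :
    ∀ (P : List Bool) (C : Cfg (Fin k)), Good c C.q.length C.e P →
      (C.lz = false ∨ P.head? ≠ some false) →
      wt k P * (1 - η) ^ (P.count true) * θ ^ (Blocked c (C.q.map Prod.snd) C.used P) ≤
        (runs c C P).card := by
  have hkc : (c : ℝ) + 2 < k := by exact_mod_cast hk
  have hc0 : (3 : ℝ) ≤ c := by exact_mod_cast hc
  have hk0 : (0 : ℝ) < k := by linarith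
  have hθ0 : 0 < θ := by
    rw [hθ]; apply div_pos _ hk0; linarith
  have hθ1 : θ ≤ 1 := by
    rw [hθ, div_le_one hk0]; linarith
  have hη0 : 0 ≤ η := by
    by_contra hneg
    push Not at hneg
    have h1 : η * (k * (k - 1)) < 0 := mul_neg_of_neg_of_pos hneg (by nlinarith)
    have h2 : (0 : ℝ) ≤ (c + 2) ^ 2 * (c * c + c) := by positivity
    linarith
  intro P
  induction P with
  | nil => intro C _ _; simp [wt, runs, Blocked]
  | cons s P ih =>
    intro C hg hlz
    cases s with
    | false =>
      obtain ⟨hlen, hg'⟩ := hg
      obtain ⟨z, q', hq⟩ : ∃ z q', C.q = z :: q' := by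
        cases hq : C.q with
        | nil => rw [hq] at hlen; simp at hlen
        | cons z q' => exact ⟨z, q', rfl⟩
      have hlz' : C.lz = false := by
        rcases hlz with h | h
        · exact h
        · simp at h
      have hok : OkD C z.1 := ⟨hlz', by rw [hq]; simp [letters]⟩
      have hmono : ((runs c (stepD C z.1) P).card : ℝ) ≤ (runs c C (false :: P)).card := by
        rw [card_runs_false]
        have : (runs c (stepD C z.1) P).card =
            if OkD C z.1 then (runs c (stepD C z.1) P).card else 0 := by simp [hok]
        rw [this]
        exact_mod_cast single_le_sum (f := fun x => if OkD C x then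
          (runs c (stepD C x) P).card else 0) (fun i _ => Nat.zero_le _) (mem_univ z.1)
      refine le_trans ?_ hmono
      have hi := ih (stepD C z.1) (by simpa [stepD, hq] using hg') (Or.inl rfl)
      have e1 : ((stepD C z.1).q.map Prod.snd) = (C.q.map Prod.snd).tail := by
        simp [stepD, hq]
      rw [e1] at hi
      simp only [wt, Blocked]
      have e2 : (false :: P).count true = P.count true := by simp
      rw [e2]
      exact hi
    | true =>
      obtain ⟨hlen, he, hg'⟩ := hg
      obtain ⟨z, q', hq⟩ : ∃ z q', C.q = z :: q' := by
        cases hq : C.q with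
        | nil => rw [hq] at hlen; simp at hlen
        | cons z q' => exact ⟨z, q', rfl⟩
      set X : ℝ := wt k P * (1 - η) ^ (P.count true) *
        θ ^ (Blocked c (C.q.map Prod.snd ++ [false]) C.used P) with hX
      have hw := wt_nonneg (k := k) (by omega) P
      have hX0 : 0 ≤ X := by
        rw [hX]
        have h1 : (0 : ℝ) ≤ (1 - η) ^ (P.count true) := pow_nonneg (by linarith) _
        positivity
      have hcount : (true :: P).count true = P.count true + 1 := by simp
      -- letters without a coincidence
      have hnc : ∀ x, ¬ Coin c C x → X ≤ (runs c (stepE c C x) P).card := by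
        intro x hx
        have hi := ih (stepE c C x) (by simpa [stepE] using hg') (Or.inl (by
          simp only [stepE, decide_eq_false_iff_not]
          intro h
          exact hx (head_coin (by omega) h)))
        have e1 : ((stepE c C x).q.map Prod.snd) = C.q.map Prod.snd ++ [false] := by
          simp [stepE, hx]
        have e2 : (stepE c C x).used = C.used := by simp [stepE, hx]
        rw [e1, e2] at hi
        exact hi
      have hncok : ∀ x, ¬ Coin c C x → OkE c C x := fun x hx =>
        ⟨hlen, he, fun h => absurd h hx⟩
      rw [card_runs_true]
      push_cast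
      by_cases hbl : C.used = true ∨ true ∈ (C.q.map Prod.snd).take c
      · -- blocked step
        simp only [wt, Blocked, hbl, if_true]
        rw [hcount, pow_succ, pow_add, pow_one]
        have hlow : (k - (c + 2) : ℝ) * X ≤
            ∑ x, (if OkE c C x then ((runs c (stepE c C x) P).card : ℝ) else 0) := by
          have h1 : ∑ x ∈ univ.filter (fun x => ¬ Coin c C x), X ≤
              ∑ x ∈ univ.filter (fun x => ¬ Coin c C x),
                (if OkE c C x then ((runs c (stepE c C x) P).card : ℝ) else 0) := by
            apply sum_le_sum
            intro x hx
            simp only [mem_filter, mem_univ, true_and] at hx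
            rw [if_pos (hncok x hx)]
            exact hnc x hx
          have h2 : ∑ x ∈ univ.filter (fun x => ¬ Coin c C x),
                (if OkE c C x then ((runs c (stepE c C x) P).card : ℝ) else 0) ≤
              ∑ x, (if OkE c C x then ((runs c (stepE c C x) P).card : ℝ) else 0) := by
            apply sum_le_sum_of_subset_of_nonneg (subset_univ _)
            intro i _ _
            split_ifs <;> positivity
          refine le_trans ?_ (h1.trans h2)
          rw [sum_const, nsmul_eq_mul]
          apply mul_le_mul_of_nonneg_right _ hX0
          have h3 := card_coin_le c C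
          have h4 := card_filter_add_card_filter_not (s := (univ : Finset (Fin k)))
            (fun x => Coin c C x)
          rw [card_univ, Fintype.card_fin] at h4
          have h5 : (k : ℝ) = ((univ.filter (fun x => Coin c C x)).card : ℝ) +
              ((univ.filter (fun x => ¬ Coin c C x)).card : ℝ) := by exact_mod_cast h4.symm
          have h6 : ((univ.filter (fun x => Coin c C x)).card : ℝ) ≤ c + 2 := by
            exact_mod_cast h3
          linarith
        refine le_trans ?_ hlow
        have hkθ : (k - (c + 2) : ℝ) = k * θ := by rw [hθ]; field_simp
        rw [hkθ]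
        have hif : (if P.head? = some true then (k : ℝ) else k - 1) ≤ k := by
          split_ifs
          · exact le_rfl
          · linarith
        have hif0 : 0 ≤ (if P.head? = some true then (k : ℝ) else k - 1) := by
          split_ifs <;> linarith
        calc (if P.head? = some true then (k : ℝ) else k - 1) * wt k P *
              ((1 - η) ^ List.count true P * (1 - η)) *
              (θ * θ ^ Blocked c (List.map Prod.snd C.q ++ [false]) C.used P)
            = ((if P.head? = some true then (k : ℝ) else k - 1) * (1 - η)) * θ * X := by
              rw [hX]; ring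
          _ ≤ (k * 1) * θ * X := by
              apply mul_le_mul_of_nonneg_right _ hX0
              apply mul_le_mul_of_nonneg_right _ hθ0.le
              exact mul_le_mul hif (by linarith) (by linarith) hk0.le
          _ = k * θ * X := by ring
      · -- free step
        simp only [wt, Blocked, hbl, if_false, zero_add]
        rw [hcount, pow_succ]
        push Not at hbl
        obtain ⟨hbu, hbm⟩ := hbl
        rw [marked_iff] at hbm
        have hbu' : C.used = false := by simpa using hbu
        have hok : ∀ x, OkE c C x := fun x => ⟨hlen, he, fun _ => ⟨hbu', hbm⟩⟩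
        set K : ℕ := c * c + c with hK
        -- letters with a coincidence
        have hco : ∀ x, Coin c C x → ((letters C.q).head? ≠ some x ∨ P.head? ≠ some false) →
            X * θ ^ K ≤ (runs c (stepE c C x) P).card := by
          intro x hx hx2
          have hi := ih (stepE c C x) (by simpa [stepE] using hg') (by
            rcases hx2 with h | h
            · left; simpa [stepE] using h
            · right; exact h)
          have e1 : ((stepE c C x).q.map Prod.snd) = C.q.map Prod.snd ++ [true] := by
            simp [stepE, hx]
          have e2 : (stepE c C x).used = true := by simp [stepE, hx]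
          rw [e1, e2] at hi
          refine le_trans ?_ hi
          rw [hX, mul_assoc, ← pow_add]
          apply mul_le_mul_of_nonneg_left
          · apply pow_le_pow_of_le_one hθ0.le hθ1
            exact blocked_step hg' (by omega)
          · exact mul_nonneg hw (pow_nonneg (by linarith) _)
        -- the good letters
        set G : Finset (Fin k) := univ.filter
          (fun x => (letters C.q).head? ≠ some x ∨ P.head? ≠ some false) with hG
        have hGk : (if P.head? = some true then (k : ℝ) else k - 1) ≤ G.card := by
          by_cases hP : P.head? = some false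
          · have h1 : G = univ.erase z.1 := by
              ext x
              simp only [hG, mem_filter, mem_univ, true_and, hP, not_true_eq_false, or_false,
                mem_erase, and_true, ne_eq]
              rw [hq]
              simp only [letters, List.map_cons, List.head?_cons, Option.some.injEq]
              exact ⟨fun h h' => h h'.symm, fun h h' => h h'.symm⟩
            rw [h1, card_erase_of_mem (mem_univ _), card_univ, Fintype.card_fin, if_neg (by
              rw [hP]; simp)]
            rw [Nat.cast_sub (by omega)]
            simp
          · have h1 : G = univ := by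
              ext x
              simp [hG, hP]
            rw [h1, card_univ, Fintype.card_fin]
            split_ifs
            · exact le_rfl
            · linarith
        have hθK : 1 - θ ^ K ≤ K * ((c + 2) / k) := by
          have hb := one_add_mul_le_pow (a := -(((c : ℝ) + 2) / k)) (by
            have : ((c : ℝ) + 2) / k ≤ 1 := by rw [div_le_one hk0]; linarith
            linarith) K
          have h1 : 1 + -(((c : ℝ) + 2) / k) = θ := by rw [hθ]; field_simp; ring
          rw [h1] at hb
          linarith
        have hθK0 : 0 ≤ 1 - θ ^ K := by
          have := pow_le_one₀ (n := K) hθ0.le hθ1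
          linarith
        have hsum : X * (G.card - (c + 2) * (1 - θ ^ K)) ≤
            ∑ x, (if OkE c C x then ((runs c (stepE c C x) P).card : ℝ) else 0) := by
          have h1 : ∑ x ∈ G, (X - (if Coin c C x then X * (1 - θ ^ K) else 0)) ≤
              ∑ x ∈ G, (if OkE c C x then ((runs c (stepE c C x) P).card : ℝ) else 0) := by
            apply sum_le_sum
            intro x hx
            rw [if_pos (hok x)]
            simp only [hG, mem_filter, mem_univ, true_and] at hx
            by_cases hcx : Coin c C x
            · rw [if_pos hcx]
              have := hco x hcx hx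
              linarith
            · rw [if_neg hcx]
              have := hnc x hcx
              linarith
          have h2 : ∑ x ∈ G, (if OkE c C x then ((runs c (stepE c C x) P).card : ℝ) else 0) ≤
              ∑ x, (if OkE c C x then ((runs c (stepE c C x) P).card : ℝ) else 0) := by
            apply sum_le_sum_of_subset_of_nonneg (subset_univ _)
            intro i _ _
            split_ifs <;> positivity
          refine le_trans ?_ (h1.trans h2)
          rw [sum_sub_distrib, sum_const, nsmul_eq_mul, ← sum_filter, sum_const, nsmul_eq_mul]
          have h3 : ((G.filter (fun x => Coin c C x)).card : ℝ) ≤ c + 2 := by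
            have h4 : (G.filter (fun x => Coin c C x)).card ≤
                (univ.filter fun x => Coin c C x).card :=
              card_le_card (filter_subset_filter _ (subset_univ _))
            exact_mod_cast h4.trans (card_coin_le c C)
          have h5 := mul_le_mul_of_nonneg_right h3 (mul_nonneg hX0 hθK0)
          nlinarith
        refine le_trans ?_ hsum
        set k' : ℝ := (if P.head? = some true then (k : ℝ) else k - 1) with hk'
        have hk'1 : (k : ℝ) - 1 ≤ k' := by
          rw [hk']; split_ifs <;> linarith
        have hkey : (c + 2 : ℝ) * (1 - θ ^ K) ≤ η * k' := by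
          have h1 : (c + 2 : ℝ) * (1 - θ ^ K) ≤ (c + 2) * (K * ((c + 2) / k)) :=
            mul_le_mul_of_nonneg_left hθK (by linarith)
          have h2 : (c + 2 : ℝ) * (K * ((c + 2) / k)) ≤ η * (k - 1) := by
            have h3 : (c + 2 : ℝ) * (K * ((c + 2) / k)) = ((c + 2) ^ 2 * (c * c + c)) / k := by
              rw [hK]; push_cast; ring
            rw [h3, div_le_iff₀ hk0]
            calc ((c : ℝ) + 2) ^ 2 * (c * c + c) ≤ η * (k * (k - 1)) := hη
              _ = η * (k - 1) * k := by ring
          have h4 : η * (k - 1) ≤ η * k' := mul_le_mul_of_nonneg_left hk'1 hη0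
          linarith
        calc k' * wt k P * ((1 - η) ^ List.count true P * (1 - η)) *
              θ ^ Blocked c (List.map Prod.snd C.q ++ [false]) C.used P
            = X * (k' - η * k') := by rw [hX]; ring
          _ ≤ X * (G.card - (c + 2) * (1 - θ ^ K)) := by
              apply mul_le_mul_of_nonneg_left _ hX0
              linarith

end Pool.Agent.H41.Shuf
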