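import Mathlib

/-!
Shuffle squares over the alphabet `Fin k`.
-/

namespace Pool.Agent.H41.Shuf

/-- The word read off from `s` at the positions in `A`, in increasing order of the positions. -/
def subword {m : ℕ} {α : Type*} (s : Fin m → α) (A : Finset (Fin m)) : List α :=
  ((List.finRange m).filter (fun i => i ∈ A)).map s

/-- `s` is a shuffle square: its set of positions can be split into two disjoint sets with the
same subword. -/
def IsShuffleSquare {m : ℕ} {α : Type*} (s : Fin m → α) : Prop :=
  ∃ A₁ A₂ : Finset (Fin m), Disjoint A₁ A₂ ∧ A₁ ∪ A₂ = Finset.univ ∧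
    subword s A₁ = subword s A₂

/-- The number of shuffle squares of semi-length `n` over an alphabet with `k` letters. -/
noncomputable def numShuffleSquares (k n : ℕ) : ℕ :=
  Nat.card {s : Fin (2 * n) → Fin k // IsShuffleSquare s}

end Pool.Agent.H41.Shuf
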