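import Pool.Agent.H41.Shuf.Queue

namespace Pool.Agent.H41.Shuf

variable {α : Type*} [DecidableEq α]

/-- the letters of a word with marks -/
def letters (q : List (α × Bool)) : List α := q.map Prod.fst

/-- configurations of the restricted queue automaton -/
structure Cfg (α : Type*) where
  /-- the queue, with marks -/
  q : List (α × Bool)
  /-- the last letter removed -/
  d : Option α
  /-- was there a coincidence since the last removal -/
  used : Bool
  /-- was the last step an appending of a letter equal to the front letter -/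
  lz : Bool
  /-- number of letters appended since the last removal -/
  e : ℕ

/-- the letter `x` is one of the `c` first letters of the queue, or the last letter of the queue,
or the last letter removed -/
def Coin (c : ℕ) (C : Cfg α) (x : α) : Prop :=
  x ∈ letters (C.q.take c) ∨ C.d = some x ∨ (letters C.q).getLast? = some x

instance (c : ℕ) (C : Cfg α) (x : α) : Decidable (Coin c C x) := by
  unfold Coin; infer_instance

/-- some letter is marked -/
def Marked (l : List (α × Bool)) : Prop := ∃ p ∈ l, p.2 = true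

instance (l : List (α × Bool)) : Decidable (Marked l) := by
  unfold Marked; infer_instance

/-- condition for appending `x` -/
def OkE (c : ℕ) (C : Cfg α) (x : α) : Prop :=
  2 ≤ C.q.length ∧ C.e + 1 < c ∧ (Coin c C x → C.used = false ∧ ¬ Marked (C.q.take c))

instance (c : ℕ) (C : Cfg α) (x : α) : Decidable (OkE c C x) := by
  unfold OkE; infer_instance

/-- appending `x` -/
def stepE (c : ℕ) (C : Cfg α) (x : α) : Cfg α where
  q := C.q ++ [(x, decide (Coin c C x))]
  d := C.d
  used := C.used || decide (Coin c C x)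
  lz := decide ((letters C.q).head? = some x)
  e := C.e + 1

/-- condition for removing the front letter, which is `x` -/
def OkD (C : Cfg α) (x : α) : Prop := C.lz = false ∧ (letters C.q).head? = some x

instance (C : Cfg α) (x : α) : Decidable (OkD C x) := by
  unfold OkD; infer_instance

/-- removing the front letter, which is `x` -/
def stepD (C : Cfg α) (x : α) : Cfg α where
  q := C.q.tail
  d := some x
  used := false
  lz := false
  e := 0

/-- admissible sequences of steps -/
def Valid (c : ℕ) : Cfg α → List (Bool × α) → Prop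
  | _, [] => True
  | C, (true, x) :: l => OkE c C x ∧ Valid c (stepE c C x) l
  | C, (false, x) :: l => OkD C x ∧ Valid c (stepD C x) l

/-- last configuration -/
def endCfg (c : ℕ) : Cfg α → List (Bool × α) → Cfg α
  | C, [] => C
  | C, (true, x) :: l => endCfg c (stepE c C x) l
  | C, (false, x) :: l => endCfg c (stepD C x) l

/-- two equal adjacent letters: the second is marked -/
def Adj (q : List (α × Bool)) : Prop := List.IsChain (fun u v => u.1 = v.1 → v.2 = true) q

theorem Adj.stepE {c : ℕ} {C : Cfg α} (h : Adj C.q) (x : α) : Adj (stepE c C x).q := by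
  unfold Adj Shuf.stepE at *
  simp only
  rw [List.isChain_append]
  refine ⟨h, List.isChain_singleton _, ?_⟩
  intro u hu v hv huv
  simp only [List.head?_cons, Option.mem_def, Option.some.injEq] at hv
  subst hv
  simp only [decide_eq_true_eq]
  right; right
  unfold letters
  rw [List.getLast?_map, hu]
  simpa using huv

omit [DecidableEq α] in
theorem Adj.stepD {C : Cfg α} (h : Adj C.q) (x : α) : Adj (stepD C x).q := by
  unfold Adj Shuf.stepD at *
  exact h.tail

/-- the heads of the two words differ, and both words have, near the front, a mark and the other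
head -/
def Blk (c : ℕ) (bA bB : List (α × Bool)) : Prop :=
  ∃ a as b bs, bA = a :: as ∧ bB = b :: bs ∧ a.1 ≠ b.1 ∧ a.1 ∈ letters (bB.take (c - 1)) ∧
    b.1 ∈ letters (bA.take (c - 1)) ∧ Marked (bA.take (c - 1)) ∧ Marked (bB.take (c - 1))

omit [DecidableEq α] in
theorem Blk.symm {c : ℕ} {bA bB : List (α × Bool)} (h : Blk c bA bB) : Blk c bB bA := by
  obtain ⟨a, as, b, bs, h1, h2, h3, h4, h5, h6, h7⟩ := h
  exact ⟨b, bs, a, as, h2, h1, h3.symm, h5, h4, h7, h6⟩

omit [DecidableEq α] in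
theorem take_sub_append {n : ℕ} (l r : List (α × Bool)) {p : α × Bool} (h : p ∈ l.take n) :
    p ∈ (l ++ r).take n := by
  rw [List.take_append]
  exact List.mem_append_left _ h

omit [DecidableEq α] in
theorem Blk.append {c : ℕ} {bA bB : List (α × Bool)} (h : Blk c bA bB) (rA rB : List (α × Bool)) :
    Blk c (bA ++ rA) (bB ++ rB) := by
  obtain ⟨a, as, b, bs, h1, h2, h3, h4, h5, h6, h7⟩ := h
  refine ⟨a, as ++ rA, b, bs ++ rB, by simp [h1], by simp [h2], h3, ?_, ?_, ?_, ?_⟩
  · obtain ⟨p, hp, hp'⟩ := List.mem_map.mp h4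
    exact List.mem_map.mpr ⟨p, take_sub_append _ _ hp, hp'⟩
  · obtain ⟨p, hp, hp'⟩ := List.mem_map.mp h5
    exact List.mem_map.mpr ⟨p, take_sub_append _ _ hp, hp'⟩
  · obtain ⟨p, hp, hp'⟩ := h6
    exact ⟨p, take_sub_append _ _ hp, hp'⟩
  · obtain ⟨p, hp, hp'⟩ := h7
    exact ⟨p, take_sub_append _ _ hp, hp'⟩

/-- first divergence in progress, `A` ahead -/
def S1 (c : ℕ) (A B : Cfg α) : Prop :=
  ∃ z g YA YB, A.q = g ++ YA ∧ B.q = z :: g ++ (z.1, true) :: YB ∧ letters YA = letters YB ∧
    (∃ g1 g', g = g1 :: g' ∧ g1.1 ≠ z.1) ∧ B.used = true ∧ A.d = some z.1 ∧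
    ((YB = [] ∧ B.lz = true) ∨ (∃ y Y', YB = y :: Y' ∧ y.1 ≠ z.1)) ∧
    YB.length + 1 ≤ B.e ∧ B.e < c

/-- in synchrony, with different blocks -/
def S2 (c : ℕ) (A B : Cfg α) : Prop :=
  ∃ g bA bB, A.q = g ++ bA ∧ B.q = g ++ bB ∧ Blk c bA bB

/-- later divergence in progress, `A` ahead -/
def S3 (c : ℕ) (A B : Cfg α) : Prop :=
  ∃ z g bA bB, A.q = g ++ bA ∧ B.q = z :: g ++ bB ∧ Blk c bA bB ∧
    (∃ g1 g', g = g1 :: g' ∧ g1.1 ≠ z.1) ∧ B.used = true

/-- the two runs have diverged -/
def Bad (c : ℕ) (A B : Cfg α) : Prop := S1 c A B ∨ S1 c B A ∨ S2 c A B ∨ S3 c A B ∨ S3 c B A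

omit [DecidableEq α] in
theorem S2.symm {c : ℕ} {A B : Cfg α} (h : S2 c A B) : S2 c B A := by
  obtain ⟨g, bA, bB, h1, h2, h3⟩ := h
  exact ⟨g, bB, bA, h2, h1, h3.symm⟩

omit [DecidableEq α] in
theorem Bad.symm {c : ℕ} {A B : Cfg α} (h : Bad c A B) : Bad c B A := by
  rcases h with h | h | h | h | h
  · exact Or.inr (Or.inl h)
  · exact Or.inl h
  · exact Or.inr (Or.inr (Or.inl h.symm))
  · exact Or.inr (Or.inr (Or.inr (Or.inr h)))
  · exact Or.inr (Or.inr (Or.inr (Or.inl h)))

omit [DecidableEq α] in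
theorem S1.ends {c : ℕ} {A B : Cfg α} (h : S1 c A B) : letters A.q ≠ letters B.q := by
  obtain ⟨z, g, YA, YB, h1, h2, h3, ⟨g1, g', hg, hgz⟩, _⟩ := h
  rw [h1, h2, hg]
  simp [letters, hgz]

omit [DecidableEq α] in
theorem S2.ends {c : ℕ} {A B : Cfg α} (h : S2 c A B) : letters A.q ≠ letters B.q := by
  obtain ⟨g, bA, bB, h1, h2, ⟨a, as, b, bs, h3, h4, h5, _⟩⟩ := h
  rw [h1, h2, h3, h4]
  simp [letters, h5]

omit [DecidableEq α] in
theorem S3.ends {c : ℕ} {A B : Cfg α} (h : S3 c A B) : letters A.q ≠ letters B.q := by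
  obtain ⟨z, g, bA, bB, h1, h2, h3, ⟨g1, g', hg, hgz⟩, _⟩ := h
  rw [h1, h2, hg]
  simp [letters, hgz]

omit [DecidableEq α] in
theorem Bad.ends {c : ℕ} {A B : Cfg α} (h : Bad c A B) : letters A.q ≠ letters B.q := by
  rcases h with h | h | h | h | h
  · exact h.ends
  · exact h.ends.symm
  · exact h.ends
  · exact h.ends
  · exact h.ends.symm

omit [DecidableEq α] in
theorem not_coin_of_used {c : ℕ} {B : Cfg α} {x : α} (h : OkE c B x) (hu : B.used = true) :
    ¬ Coin c B x := by
  intro hc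
  have := (h.2.2 hc).1
  rw [hu] at this
  exact absurd this (by decide)

theorem S1.stepEE {c : ℕ} (hc : 3 ≤ c) {A B : Cfg α} (h : S1 c A B) {x : α}
    (hB : OkE c B x) : S1 c (stepE c A x) (stepE c B x) := by
  obtain ⟨z, g, YA, YB, h1, h2, h3, ⟨g1, g', hg, hgz⟩, h5, h6, h7, h8, h9⟩ := h
  have hnc := not_coin_of_used hB h5
  have hxz : x ≠ z.1 := by
    rintro rfl
    apply hnc
    left
    rw [h2]
    obtain ⟨c', rfl⟩ : ∃ c', c = c' + 1 := ⟨c - 1, by omega⟩
    simp [letters]
  refine ⟨z, g, YA ++ [(x, decide (Coin c A x))], YB ++ [(x, decide (Coin c B x))], ?_, ?_, ?_,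
    ⟨g1, g', hg, hgz⟩, ?_, ?_, ?_, ?_, ?_⟩
  · simp [stepE, h1]
  · simp [stepE, h2]
  · simp only [letters, List.map_append, List.map_cons, List.map_nil] at *
    rw [h3]
  · simp [stepE, h5]
  · simp [stepE, h6]
  · right
    rcases h7 with ⟨h7, _⟩ | ⟨y, Y', hy, hyz⟩
    · subst h7
      exact ⟨_, [], by simp; rfl, hxz⟩
    · exact ⟨y, Y' ++ [(x, decide (Coin c B x))], by simp [hy], hyz⟩
  · simp [stepE]; omega
  · simp [stepE]; exact hB.2.1

theorem S2.stepEE {c : ℕ} {A B : Cfg α} (h : S2 c A B) (x : α) :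
    S2 c (stepE c A x) (stepE c B x) := by
  obtain ⟨g, bA, bB, h1, h2, h3⟩ := h
  exact ⟨g, bA ++ [(x, decide (Coin c A x))], bB ++ [(x, decide (Coin c B x))],
    by simp [stepE, h1], by simp [stepE, h2], h3.append _ _⟩

theorem S3.stepEE {c : ℕ} {A B : Cfg α} (h : S3 c A B) (x : α) :
    S3 c (stepE c A x) (stepE c B x) := by
  obtain ⟨z, g, bA, bB, h1, h2, h3, h4, h5⟩ := h
  exact ⟨z, g, bA ++ [(x, decide (Coin c A x))], bB ++ [(x, decide (Coin c B x))],
    by simp [stepE, h1], by simp [stepE, h2], h3.append _ _, h4, by simp [stepE, h5]⟩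

theorem Bad.stepEE {c : ℕ} (hc : 3 ≤ c) {A B : Cfg α} (h : Bad c A B) {x : α}
    (hA : OkE c A x) (hB : OkE c B x) : Bad c (stepE c A x) (stepE c B x) := by
  rcases h with h | h | h | h | h
  · exact Or.inl (h.stepEE hc hB)
  · exact Or.inr (Or.inl (h.stepEE hc hA))
  · exact Or.inr (Or.inr (Or.inl (h.stepEE x)))
  · exact Or.inr (Or.inr (Or.inr (Or.inl (h.stepEE x))))
  · exact Or.inr (Or.inr (Or.inr (Or.inr (h.stepEE x))))

omit [DecidableEq α] in
theorem S1.stepDD {c : ℕ} {A B : Cfg α} (h : S1 c A B) {x : α}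
    (hA : OkD A x) (hB : OkD B x) : False := by
  obtain ⟨z, g, YA, YB, h1, h2, h3, ⟨g1, g', hg, hgz⟩, _⟩ := h
  have hA2 := hA.2
  have hB2 := hB.2
  rw [h1, hg] at hA2
  rw [h2] at hB2
  simp [letters] at hA2 hB2
  exact hgz (hA2.trans hB2.symm)

omit [DecidableEq α] in
theorem S2.stepDD {c : ℕ} {A B : Cfg α} (h : S2 c A B) {x : α}
    (hA : OkD A x) (hB : OkD B x) : S2 c (stepD A x) (stepD B x) := by
  obtain ⟨g, bA, bB, h1, h2, h3⟩ := h
  cases g with
  | nil =>
    exfalso
    obtain ⟨a, as, b, bs, h3, h4, h5, _⟩ := h3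
    have hA2 := hA.2
    have hB2 := hB.2
    rw [h1, h3] at hA2
    rw [h2, h4] at hB2
    simp [letters] at hA2 hB2
    exact h5 (hA2.trans hB2.symm)
  | cons z g =>
    exact ⟨g, bA, bB, by simp [stepD, h1], by simp [stepD, h2], h3⟩

omit [DecidableEq α] in
theorem S3.stepDD {c : ℕ} {A B : Cfg α} (h : S3 c A B) {x : α}
    (hA : OkD A x) (hB : OkD B x) : False := by
  obtain ⟨z, g, bA, bB, h1, h2, h3, ⟨g1, g', hg, hgz⟩, _⟩ := h
  have hA2 := hA.2
  have hB2 := hB.2
  rw [h1, hg] at hA2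
  rw [h2] at hB2
  simp [letters] at hA2 hB2
  exact hgz (hA2.trans hB2.symm)

omit [DecidableEq α] in
theorem Bad.stepDD {c : ℕ} {A B : Cfg α} (h : Bad c A B) {x : α}
    (hA : OkD A x) (hB : OkD B x) : Bad c (stepD A x) (stepD B x) := by
  rcases h with h | h | h | h | h
  · exact (h.stepDD hA hB).elim
  · exact (h.stepDD hB hA).elim
  · exact Or.inr (Or.inr (Or.inl (h.stepDD hA hB)))
  · exact (h.stepDD hA hB).elim
  · exact (h.stepDD hB hA).elim

omit [DecidableEq α] in
theorem S1.stepDE {c : ℕ} (hc : 3 ≤ c) {A B : Cfg α} (h : S1 c A B) {x : α}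
    (hA : OkD A x) (hB : OkE c B x) : False := by
  obtain ⟨z, g, YA, YB, h1, h2, h3, ⟨g1, g', hg, hgz⟩, h5, h6, h7, h8, h9⟩ := h
  have hA2 := hA.2
  rw [h1, hg] at hA2
  simp [letters] at hA2
  apply not_coin_of_used hB h5
  left
  rw [h2, hg]
  obtain ⟨c', rfl⟩ : ∃ c', c = c' + 2 := ⟨c - 2, by omega⟩
  simp [letters, hA2]

theorem S1.stepED {c : ℕ} (hc : 3 ≤ c) {A B : Cfg α} (h : S1 c A B) {x : α}
    (hA : OkE c A x) (hB : OkD B x) : S2 c (stepE c A x) (stepD B x) := by
  obtain ⟨z, g, YA, YB, h1, h2, h3, ⟨g1, g', hg, hgz⟩, h5, h6, h7, h8, h9⟩ := h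
  have hB2 := hB.2
  rw [h2] at hB2
  simp [letters] at hB2
  subst hB2
  have hcoin : Coin c A z.1 := Or.inr (Or.inl h6)
  obtain ⟨y, Y', hy, hyz⟩ : ∃ y Y', YB = y :: Y' ∧ y.1 ≠ z.1 := by
    rcases h7 with ⟨_, h7⟩ | h7
    · rw [hB.1] at h7; exact absurd h7 (by decide)
    · exact h7
  subst hy
  obtain ⟨c', rfl⟩ : ∃ c', c = c' + 3 := ⟨c - 3, by omega⟩
  have hlen : YA.length = Y'.length + 1 := by
    have := congrArg List.length h3
    simpa [letters] using this
  obtain ⟨u, U, rfl⟩ : ∃ u U, YA = u :: U := by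
    cases YA with
    | nil => simp at hlen
    | cons u U => exact ⟨u, U, rfl⟩
  have hu : u.1 = y.1 := by
    simp [letters] at h3; exact h3.1
  refine ⟨g, (u :: U) ++ [(z.1, true)], (z.1, true) :: y :: Y', ?_, ?_, ?_⟩
  · simp [stepE, h1, hcoin]
  · simp [stepD, h2]
  · refine ⟨u, U ++ [(z.1, true)], (z.1, true), y :: Y', by simp, rfl, by simpa [hu] using hyz,
      ?_, ?_, ?_, ?_⟩
    · simp [letters, hu]
    · have : ((u :: U) ++ [(z.1, true)]).take (c' + 3 - 1) = (u :: U) ++ [(z.1, true)] := by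
        apply List.take_of_length_le
        simp at hlen h8 ⊢
        omega
      rw [this]
      simp [letters]
    · have : ((u :: U) ++ [(z.1, true)]).take (c' + 3 - 1) = (u :: U) ++ [(z.1, true)] := by
        apply List.take_of_length_le
        simp at hlen h8 ⊢
        omega
      rw [this]
      exact ⟨(z.1, true), by simp, rfl⟩
    · exact ⟨(z.1, true), by simp, rfl⟩

theorem S2.stepDE {c : ℕ} (hc : 3 ≤ c) {A B : Cfg α} (h : S2 c A B) {x : α}
    (hadj : Adj B.q) (hA : OkD A x) (hB : OkE c B x) : S3 c (stepD A x) (stepE c B x) := by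
  obtain ⟨g, bA, bB, h1, h2, hblk⟩ := h
  obtain ⟨c', rfl⟩ : ∃ c', c = c' + 3 := ⟨c - 3, by omega⟩
  have hA2 := hA.2
  rw [h1] at hA2
  cases g with
  | nil =>
    exfalso
    obtain ⟨a, as, b, bs, h3, h4, h5, h6, h7, h8, h9⟩ := hblk
    rw [h3] at hA2
    simp [letters] at hA2
    subst hA2
    have hcoin : Coin (c' + 3) B a.1 := by
      left
      rw [h2]
      obtain ⟨p, hp, hp'⟩ := List.mem_map.mp h6
      refine List.mem_map.mpr ⟨p, ?_, hp'⟩
      exact (List.take_subset_take_left _ (by omega)) hp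
    apply (hB.2.2 hcoin).2
    obtain ⟨p, hp, hp'⟩ := h9
    refine ⟨p, ?_, hp'⟩
    rw [h2]
    exact (List.take_subset_take_left _ (by omega)) hp
  | cons z g =>
    simp [letters] at hA2
    subst hA2
    have hcoin : Coin (c' + 3) B z.1 := by
      left
      rw [h2]
      simp [letters]
    have hnm := (hB.2.2 hcoin).2
    have hg : ∃ g1 g', g = g1 :: g' ∧ g1.1 ≠ z.1 := by
      cases g with
      | nil =>
        exfalso
        apply hnm
        obtain ⟨a, as, b, bs, h3, h4, h5, h6, h7, h8, h9⟩ := hblk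
        obtain ⟨p, hp, hp'⟩ := h9
        refine ⟨p, ?_, hp'⟩
        rw [h2]
        simp only [List.cons_append, List.nil_append, List.take_succ_cons]
        exact List.mem_cons_of_mem _ hp
      | cons g1 g' =>
        refine ⟨g1, g', rfl, ?_⟩
        intro he
        apply hnm
        refine ⟨g1, by rw [h2]; simp, ?_⟩
        unfold Adj at hadj
        rw [h2] at hadj
        simp only [List.cons_append, List.isChain_cons_cons] at hadj
        exact hadj.1 he.symm
    refine ⟨z, g, bA, bB ++ [(z.1, decide (Coin (c' + 3) B z.1))], ?_, ?_, ?_, hg, ?_⟩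
    · simp [stepD, h1]
    · simp [stepE, h2]
    · simpa using hblk.append [] [(z.1, decide (Coin (c' + 3) B z.1))]
    · simp [stepE, hcoin]

omit [DecidableEq α] in
theorem S3.stepDE {c : ℕ} (hc : 3 ≤ c) {A B : Cfg α} (h : S3 c A B) {x : α}
    (hA : OkD A x) (hB : OkE c B x) : False := by
  obtain ⟨z, g, bA, bB, h1, h2, hblk, ⟨g1, g', hg, hgz⟩, h5⟩ := h
  have hA2 := hA.2
  rw [h1, hg] at hA2
  simp [letters] at hA2
  apply not_coin_of_used hB h5
  left
  rw [h2, hg]
  obtain ⟨c', rfl⟩ : ∃ c', c = c' + 2 := ⟨c - 2, by omega⟩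
  simp [letters, hA2]

theorem S3.stepED {c : ℕ} {A B : Cfg α} (h : S3 c A B) {x : α} :
    S2 c (stepE c A x) (stepD B x) := by
  obtain ⟨z, g, bA, bB, h1, h2, hblk, ⟨g1, g', hg, hgz⟩, h5⟩ := h
  refine ⟨g, bA ++ [(x, decide (Coin c A x))], bB, ?_, ?_, ?_⟩
  · simp [stepE, h1]
  · simp [stepD, h2]
  · simpa using hblk.append [(x, decide (Coin c A x))] []

theorem Bad.stepDE {c : ℕ} (hc : 3 ≤ c) {A B : Cfg α} (h : Bad c A B) {x : α}
    (hadj : Adj B.q) (hA : OkD A x) (hB : OkE c B x) : Bad c (stepD A x) (stepE c B x) := by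
  rcases h with h | h | h | h | h
  · exact (h.stepDE hc hA hB).elim
  · exact Or.inr (Or.inr (Or.inl (h.stepED hc hB hA).symm))
  · exact Or.inr (Or.inr (Or.inr (Or.inl (h.stepDE hc hadj hA hB))))
  · exact (h.stepDE hc hA hB).elim
  · exact Or.inr (Or.inr (Or.inl h.stepED.symm))

theorem Bad.run {c : ℕ} (hc : 3 ≤ c) : ∀ (lA lB : List (Bool × α)) (A B : Cfg α), Bad c A B →
    Adj A.q → Adj B.q → Valid c A lA → Valid c B lB → lA.map Prod.snd = lB.map Prod.snd →
    letters (endCfg c A lA).q ≠ letters (endCfg c B lB).q := by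
  intro lA
  induction lA with
  | nil =>
    intro lB A B h _ _ _ _ hl
    cases lB with
    | nil => exact h.ends
    | cons b lB => simp at hl
  | cons a lA ih =>
    intro lB A B h hA hB hvA hvB hl
    cases lB with
    | nil => simp at hl
    | cons b lB =>
      obtain ⟨s, x⟩ := a
      obtain ⟨t, y⟩ := b
      simp only [List.map_cons, List.cons.injEq] at hl
      obtain ⟨rfl, hl⟩ := hl
      cases s with
      | false =>
        cases t with
        | false => exact ih lB _ _ (h.stepDD hvA.1 hvB.1) (hA.stepD x) (hB.stepD x) hvA.2 hvB.2 hl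
        | true =>
          exact ih lB _ _ (h.stepDE hc hB hvA.1 hvB.1) (hA.stepD x) (hB.stepE x) hvA.2 hvB.2 hl
      | true =>
        cases t with
        | false =>
          exact ih lB _ _ (h.symm.stepDE hc hA hvB.1 hvA.1).symm (hA.stepE x) (hB.stepD x)
            hvA.2 hvB.2 hl
        | true =>
          exact ih lB _ _ (h.stepEE hc hvA.1 hvB.1) (hA.stepE x) (hB.stepE x) hvA.2 hvB.2 hl

theorem diverge {c : ℕ} (hc : 3 ≤ c) {C : Cfg α} {x : α} (hadj : Adj C.q) (hD : OkD C x)
    (hE : OkE c C x) : S1 c (stepD C x) (stepE c C x) := by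
  obtain ⟨c', rfl⟩ : ∃ c', c = c' + 3 := ⟨c - 3, by omega⟩
  have hlen := hE.1
  obtain ⟨q, d, used, lz, e⟩ := C
  simp only at hlen hadj
  obtain ⟨z, g1, g', rfl⟩ : ∃ z g1 g', q = z :: g1 :: g' := by
    cases q with
    | nil => simp at hlen
    | cons z q =>
      cases q with
      | nil => simp at hlen
      | cons g1 g' => exact ⟨z, g1, g', rfl⟩
  have hx := hD.2
  simp [letters] at hx
  subst hx
  have hcoin : Coin (c' + 3) (⟨z :: g1 :: g', d, used, lz, e⟩ : Cfg α) z.1 := by
    left; simp [letters]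
  have hnm := (hE.2.2 hcoin).2
  have hgz : g1.1 ≠ z.1 := by
    intro he
    apply hnm
    refine ⟨g1, by simp, ?_⟩
    unfold Adj at hadj
    simp only [List.isChain_cons_cons] at hadj
    exact hadj.1 he.symm
  refine ⟨z, g1 :: g', [], [], ?_, ?_, rfl, ⟨g1, g', rfl, hgz⟩, ?_, ?_, ?_, ?_, ?_⟩
  · simp [stepD]
  · simp [stepE, hcoin]
  · simp [stepE, hcoin]
  · simp [stepD]
  · left; simp [stepE, letters]
  · simp [stepE]
  · have h9 := hE.2.1
    simp only at h9
    simp only [stepE]
    exact h9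

/-- A run is determined by the word read and the last content of the queue. -/
theorem run_unique {c : ℕ} (hc : 3 ≤ c) : ∀ (lA lB : List (Bool × α)) (C : Cfg α),
    Adj C.q → Valid c C lA → Valid c C lB → lA.map Prod.snd = lB.map Prod.snd →
    letters (endCfg c C lA).q = letters (endCfg c C lB).q → lA = lB := by
  intro lA
  induction lA with
  | nil =>
    intro lB C _ _ _ hl _
    cases lB with
    | nil => rfl
    | cons b lB => simp at hl
  | cons a lA ih =>
    intro lB C hadj hvA hvB hl hend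
    cases lB with
    | nil => simp at hl
    | cons b lB =>
      obtain ⟨s, x⟩ := a
      obtain ⟨t, y⟩ := b
      simp only [List.map_cons, List.cons.injEq] at hl
      obtain ⟨rfl, hl⟩ := hl
      cases s with
      | false =>
        cases t with
        | false => rw [ih lB _ (hadj.stepD x) hvA.2 hvB.2 hl hend]
        | true =>
          exact absurd hend (Bad.run hc lA lB _ _ (Or.inl (diverge hc hadj hvA.1 hvB.1))
            (hadj.stepD x) (hadj.stepE x) hvA.2 hvB.2 hl)
      | true =>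
        cases t with
        | false =>
          exact absurd hend.symm (Bad.run hc lB lA _ _ (Or.inl (diverge hc hadj hvB.1 hvA.1))
            (hadj.stepD x) (hadj.stepE x) hvB.2 hvA.2 hl.symm)
        | true => rw [ih lB _ (hadj.stepE x) hvA.2 hvB.2 hl hend]

end Pool.Agent.H41.Shuf
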