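import Pool.Agent.H41.Shuf.Queue

open Finset

namespace Pool.Agent.H41.Shuf

section
variable {α : Type*} [DecidableEq α]

/-- Canonical runs: after appending a letter equal to the front letter, the next step is not a
removal. -/
inductive CRun : List α → Bool → List α → Prop
  | nil : CRun [] false []
  | enq (x : α) {q w : List α} {f : Bool} :
      CRun (q ++ [x]) (decide (q.head? = some x)) w → CRun q f (x :: w)
  | deq (x : α) {q w : List α} : CRun q false w → CRun (x :: q) false (x :: w)

theorem crun_of_qrun : ∀ (w q : List α), QRun q w → CRun q false w ∧
    ((∀ x q' w', q = x :: q' → w = x :: w' → ¬ QRun q' w') → q ≠ [] → CRun q true w) := by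
  intro w
  induction w with
  | nil =>
    intro q h
    cases h
    exact ⟨CRun.nil, fun _ h => absurd rfl h⟩
  | cons x w ih =>
    intro q h
    have key : (∀ q', q = x :: q' → ¬ QRun q' w) → ∀ f, CRun q f (x :: w) := by
      intro hnv f
      have hE : QRun (q ++ [x]) w := by
        cases h with
        | enq _ h' => exact h'
        | deq _ h' => exact absurd h' (hnv _ rfl)
      apply CRun.enq
      by_cases hlz : q.head? = some x
      · obtain ⟨q', rfl⟩ : ∃ q', q = x :: q' := by
          cases q with
          | nil => simp at hlz
          | cons y q' =>
            simp at hlz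
            subst hlz
            exact ⟨q', rfl⟩
        rw [decide_eq_true hlz]
        apply (ih _ hE).2
        · intro y q'' w' h1 h2 h3
          simp only [List.cons_append, List.cons.injEq] at h1
          obtain ⟨rfl, rfl⟩ := h1
          subst h2
          exact hnv q' rfl (QRun.enq _ h3)
        · simp
      · rw [decide_eq_false hlz]
        exact (ih _ hE).1
    constructor
    · by_cases hv : ∃ q', q = x :: q' ∧ QRun q' w
      · obtain ⟨q', rfl, hq'⟩ := hv
        exact CRun.deq x (ih _ hq').1
      · exact key (fun q' h1 h2 => hv ⟨q', h1, h2⟩) false
    · intro hnv _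
      exact key (fun q' h1 h2 => hnv x q' w h1 rfl h2) true

end

variable {k : ℕ}

/-- bound for the number of canonical runs -/
noncomputable def cb (k : ℕ) (f : Bool) (h n : ℕ) : ℝ :=
  (if f = true then √(k - 1 : ℝ) / (√k + √(k - 1 : ℝ)) else 1) * (1 / √k) ^ h *
    (√k + √(k - 1 : ℝ)) ^ n

open Classical in
theorem card_crun_le (hk : 1 ≤ k) : ∀ (n : ℕ) (q : List (Fin k)) (f : Bool),
    (f = true → q ≠ []) →
    ((univ.filter fun w : Fin n → Fin k => CRun q f (List.ofFn w)).card : ℝ) ≤
      cb k f q.length n := by
  have hk' : (1 : ℝ) ≤ k := by exact_mod_cast hk
  have hu : 0 < √(k : ℝ) := Real.sqrt_pos.mpr (by linarith)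
  have hv : 0 ≤ √(k - 1 : ℝ) := Real.sqrt_nonneg _
  have hu2 : √(k : ℝ) ^ 2 = k := Real.sq_sqrt (by linarith)
  have hv2 : √(k - 1 : ℝ) ^ 2 = k - 1 := Real.sq_sqrt (by linarith)
  set u := √(k : ℝ) with hu_def
  set v := √(k - 1 : ℝ) with hv_def
  have hl : 0 < u + v := by linarith
  intro n
  induction n with
  | zero =>
    intro q f hf
    by_cases hq : CRun q f []
    · have h1 : q = [] ∧ f = false := by cases hq; exact ⟨rfl, rfl⟩
      obtain ⟨rfl, rfl⟩ := h1
      simp [cb]
      exact_mod_cast card_le_univ _
    · have : (univ.filter fun w : Fin 0 → Fin k => CRun q f (List.ofFn w)) = ∅ := by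
        apply filter_false_of_mem
        intro w _
        simpa using hq
      rw [this]
      simp only [card_empty, Nat.cast_zero, cb]
      split_ifs <;> positivity
  | succ n ih =>
    intro q f hf
    -- split according to the first letter
    have hsplit : ((univ.filter fun w : Fin (n + 1) → Fin k => CRun q f (List.ofFn w)).card : ℝ)
        = ∑ x : Fin k, ((univ.filter fun w : Fin n → Fin k =>
            CRun q f (x :: List.ofFn w)).card : ℝ) := by
      have h1 : (univ.filter fun w : Fin (n + 1) → Fin k => CRun q f (List.ofFn w)) =
          univ.biUnion fun x : Fin k => (univ.filter fun w : Fin n → Fin k =>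
            CRun q f (x :: List.ofFn w)).image
              (fun w' : Fin n → Fin k => (Fin.cons x w' : Fin (n + 1) → Fin k)) := by
        ext w
        simp only [mem_filter, mem_univ, true_and, mem_biUnion, mem_image]
        constructor
        · intro h
          refine ⟨w 0, Fin.tail w, ?_, Fin.cons_self_tail w⟩
          rw [List.ofFn_succ] at h
          exact h
        · rintro ⟨x, w', h, rfl⟩
          rw [List.ofFn_succ]
          simpa using h
      rw [h1, card_biUnion]
      · push_cast
        apply sum_congr rfl
        intro x _
        rw [card_image_of_injective]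
        intro a b hab
        exact (Fin.cons_injective2 hab).2
      · intro x _ y _ hxy
        rw [Function.onFun, disjoint_left]
        intro w hw hw'
        obtain ⟨a, _, rfl⟩ := mem_image.mp hw
        obtain ⟨b, _, hb⟩ := mem_image.mp hw'
        exact hxy (Fin.cons_injective2 hb).1.symm
    have hx : ∀ x : Fin k, ((univ.filter fun w : Fin n → Fin k =>
        CRun q f (x :: List.ofFn w)).card : ℝ) ≤
        cb k (decide (q.head? = some x)) (q.length + 1) n +
        (if f = false ∧ q.head? = some x then cb k false (q.length - 1) n else 0) := by
      intro x
      have h1 : (univ.filter fun w : Fin n → Fin k => CRun q f (x :: List.ofFn w)) ⊆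
          (univ.filter fun w : Fin n → Fin k =>
            CRun (q ++ [x]) (decide (q.head? = some x)) (List.ofFn w)) ∪
          (univ.filter fun w : Fin n → Fin k => (f = false ∧ q.head? = some x) ∧
            CRun q.tail false (List.ofFn w)) := by
        intro w hw
        simp only [mem_filter, mem_univ, true_and, mem_union] at hw ⊢
        generalize hW : List.ofFn w = W at hw ⊢
        cases hw with
        | enq _ h => exact Or.inl h
        | deq _ h => exact Or.inr ⟨⟨rfl, by simp⟩, by simpa using h⟩
      have h2 := (card_le_card h1).trans (card_union_le _ _)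
      have h3 : ((univ.filter fun w : Fin n → Fin k => CRun q f (x :: List.ofFn w)).card : ℝ) ≤
          ((univ.filter fun w : Fin n → Fin k =>
            CRun (q ++ [x]) (decide (q.head? = some x)) (List.ofFn w)).card : ℝ) +
          ((univ.filter fun w : Fin n → Fin k => (f = false ∧ q.head? = some x) ∧
            CRun q.tail false (List.ofFn w)).card : ℝ) := by exact_mod_cast h2
      refine h3.trans (add_le_add ?_ ?_)
      · have := ih (q ++ [x]) (decide (q.head? = some x)) (fun _ => by simp)
        simpa using this
      · split_ifs with hfx
        · have h4 := ih q.tail false (by simp)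
          simp only [hfx, true_and, and_self]
          simpa using h4
        · have : (univ.filter fun w : Fin n → Fin k => (f = false ∧ q.head? = some x) ∧
              CRun q.tail false (List.ofFn w)) = ∅ := by
            apply filter_false_of_mem
            intro w _ h
            exact hfx h.1
          rw [this]; simp
    rw [hsplit]
    refine (sum_le_sum fun x _ => hx x).trans ?_
    cases q with
    | nil =>
      have hf' : f = false := by
        cases f with
        | false => rfl
        | true => exact absurd rfl (hf rfl)
      subst hf'
      simp only [List.head?_nil, reduceCtorEq, decide_false, and_false, if_false, add_zero,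
        List.length_nil, zero_add, sum_const, card_univ, Fintype.card_fin, nsmul_eq_mul, cb,
        Bool.false_eq_true, pow_one, pow_zero, one_mul, mul_one]
      rw [← hu_def, ← hv_def, pow_succ]
      have h1 : (k : ℝ) * (1 / u * (u + v) ^ n) = (u + v) ^ n * u := by
        rw [← hu2]; field_simp
      rw [h1]
      apply mul_le_mul_of_nonneg_left _ (pow_nonneg hl.le n)
      linarith
    | cons y q' =>
      simp only [List.head?_cons, Option.some.injEq, List.length_cons, Nat.add_sub_cancel]
      have h1 : ∀ x : Fin k, cb k (decide (y = x)) (q'.length + 1 + 1) n +
          (if f = false ∧ y = x then cb k false q'.length n else 0) =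
          cb k false (q'.length + 1 + 1) n + (if x = y then
            (cb k true (q'.length + 1 + 1) n - cb k false (q'.length + 1 + 1) n +
            (if f = false then cb k false q'.length n else 0)) else 0) := by
        intro x
        by_cases hxy : y = x
        · subst hxy
          simp
          ring
        · simp [hxy, Ne.symm hxy]
      rw [sum_congr rfl (fun x _ => h1 x), sum_add_distrib, sum_const, card_univ,
        Fintype.card_fin, nsmul_eq_mul, sum_ite_eq' univ y, if_pos (mem_univ y)]
      -- numerical identity
      have huv : (u - v) * (u + v) = 1 := by nlinarith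
      have hlu : 1 / (u + v) = u - v := by
        field_simp; linarith
      have e1 : cb k false (q'.length + 1 + 1) n = (1 / u) ^ 2 * ((1 / u) ^ q'.length *
          (u + v) ^ n) := by
        simp only [cb, Bool.false_eq_true, if_false]
        rw [← hu_def, ← hv_def]; ring
      have e2 : cb k true (q'.length + 1 + 1) n = v * (u - v) * (1 / u) ^ 2 *
          ((1 / u) ^ q'.length * (u + v) ^ n) := by
        simp only [cb, if_true]
        rw [← hu_def, ← hv_def, div_eq_mul_one_div v, hlu]; ring
      have e3 : cb k false q'.length n = ((1 / u) ^ q'.length * (u + v) ^ n) := by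
        simp only [cb, Bool.false_eq_true, if_false]
        rw [← hu_def, ← hv_def]; ring
      have e4 : cb k false (q'.length + 1) (n + 1) = (1 / u) * (u + v) *
          ((1 / u) ^ q'.length * (u + v) ^ n) := by
        simp only [cb, Bool.false_eq_true, if_false]
        rw [← hu_def, ← hv_def]; ring
      have e5 : cb k true (q'.length + 1) (n + 1) = v * (1 / u) *
          ((1 / u) ^ q'.length * (u + v) ^ n) := by
        simp only [cb, if_true]
        rw [← hu_def, ← hv_def, div_eq_mul_one_div v, hlu]
        linear_combination (v * (1 / u) ^ (q'.length + 1) * (u + v) ^ n) * huv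
      rw [e1, e2, e3]
      set Z := ((1 / u) ^ q'.length * (u + v) ^ n) with hZ
      have hune : u ≠ 0 := hu.ne'
      cases f with
      | true =>
        rw [e5]
        simp only [Bool.true_eq_false, if_false, add_zero]
        apply le_of_eq
        rw [← hu2]
        field_simp
        linear_combination Z * huv
      | false =>
        rw [e4]
        simp only [if_true]
        apply le_of_eq
        rw [← hu2]
        field_simp
        linear_combination Z * huv

/-- The upper bound. -/
theorem upper_bound (hk : 1 ≤ k) (n : ℕ) :
    (numShuffleSquares k n : ℝ) ≤ ((√k + √(k - 1 : ℝ)) ^ 2) ^ n := by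
  classical
  unfold numShuffleSquares
  rw [Nat.card_eq_fintype_card, Fintype.card_subtype]
  have h1 : ((univ.filter fun s : Fin (2 * n) → Fin k => IsShuffleSquare s).card : ℝ) ≤
      ((univ.filter fun s : Fin (2 * n) → Fin k => CRun [] false (List.ofFn s)).card : ℝ) := by
    have : (univ.filter fun s : Fin (2 * n) → Fin k => IsShuffleSquare s) ⊆
        (univ.filter fun s : Fin (2 * n) → Fin k => CRun [] false (List.ofFn s)) := by
      intro s hs
      simp only [mem_filter, mem_univ, true_and] at hs ⊢
      rw [isShuffleSquare_iff] at hs
      exact (crun_of_qrun _ _ hs).1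
    exact_mod_cast card_le_card this
  refine h1.trans ?_
  have h2 := card_crun_le hk (2 * n) ([] : List (Fin k)) false (by simp)
  refine h2.trans (le_of_eq ?_)
  simp only [cb, Bool.false_eq_true, if_false, List.length_nil, pow_zero, one_mul]
  rw [pow_mul]

end Pool.Agent.H41.Shuf
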