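import Pool.Agent.H41.Shuf.Lower
import Pool.Agent.H41.Shuf.Upper

open Finset Filter Topology

namespace Pool.Agent.H41.Shuf

section
variable {α : Type*}

theorem QRun.append {q w w' : List α} (h : QRun q w) (h' : QRun [] w') : QRun q (w ++ w') := by
  induction h with
  | nil => simpa using h'
  | enq x _ ih => exact QRun.enq x ih
  | deq x _ ih => exact QRun.deq x ih

end

variable {k : ℕ}

theorem numShuffleSquares_pos (hk : 1 ≤ k) (n : ℕ) : 1 ≤ numShuffleSquares k n := by
  have h := card_le_numShuffleSquares (n := n)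
    ({List.replicate n (⟨0, by omega⟩ : Fin k) ++ List.replicate n (⟨0, by omega⟩ : Fin k)} :
      Finset (List (Fin k))) (by
    intro w hw
    rw [mem_singleton] at hw
    subst hw
    constructor
    · simp; ring
    · apply QRun.enqAll
      simpa using QRun.deqAll _)
  simpa using h

theorem numShuffleSquares_mul_le (m n : ℕ) :
    numShuffleSquares k m * numShuffleSquares k n ≤ numShuffleSquares k (m + n) := by
  classical
  have hm : ∀ m, numShuffleSquares k m =
      (univ.filter fun s : Fin (2 * m) → Fin k => IsShuffleSquare s).card := by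
    intro m
    unfold numShuffleSquares
    rw [Nat.card_eq_fintype_card, Fintype.card_subtype]
  rw [hm m, hm n, ← card_product]
  have h1 : (((univ.filter fun s : Fin (2 * m) → Fin k => IsShuffleSquare s) ×ˢ
      (univ.filter fun s : Fin (2 * n) → Fin k => IsShuffleSquare s)).image
      (fun p => List.ofFn p.1 ++ List.ofFn p.2)).card =
      ((univ.filter fun s : Fin (2 * m) → Fin k => IsShuffleSquare s) ×ˢ
      (univ.filter fun s : Fin (2 * n) → Fin k => IsShuffleSquare s)).card := by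
    apply card_image_of_injective
    rintro ⟨s, t⟩ ⟨s', t'⟩ h
    simp only at h
    have h2 := List.append_inj h (by simp)
    exact Prod.ext (List.ofFn_injective h2.1) (List.ofFn_injective h2.2)
  rw [← h1]
  apply card_le_numShuffleSquares
  intro w hw
  obtain ⟨⟨s, t⟩, hp, rfl⟩ := mem_image.mp hw
  simp only [mem_product, mem_filter, mem_univ, true_and] at hp
  rw [isShuffleSquare_iff, isShuffleSquare_iff] at hp
  constructor
  · simp; ring
  · exact hp.1.append hp.2

/-- Existence of the growth rate, by Fekete's lemma. -/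
theorem exists_growth (hk : 1 ≤ k) : ∃ L : ℝ, 0 < L ∧
    Tendsto (fun n : ℕ => (numShuffleSquares k n : ℝ) ^ (1 / (n : ℝ))) atTop (𝓝 L) ∧
    (∀ n : ℕ, (numShuffleSquares k n : ℝ) ≤ L ^ n) ∧ L ≤ (√k + √(k - 1 : ℝ)) ^ 2 := by
  have hN : ∀ n, (1 : ℝ) ≤ numShuffleSquares k n := fun n => by
    exact_mod_cast numShuffleSquares_pos hk n
  have hN0 : ∀ n, (0 : ℝ) < numShuffleSquares k n := fun n => lt_of_lt_of_le one_pos (hN n)
  have hk' : (1 : ℝ) ≤ k := by exact_mod_cast hk
  set Λ : ℝ := (√k + √(k - 1 : ℝ)) ^ 2 with hΛ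
  have hΛ0 : 0 < Λ := by
    have : 0 < √(k : ℝ) := Real.sqrt_pos.mpr (by linarith)
    have : 0 ≤ √(k - 1 : ℝ) := Real.sqrt_nonneg _
    positivity
  set u : ℕ → ℝ := fun n => -Real.log (numShuffleSquares k n) with hu
  have hsub : Subadditive u := by
    intro m n
    simp only [hu]
    have h1 : ((numShuffleSquares k m : ℝ) * numShuffleSquares k n) ≤
        numShuffleSquares k (m + n) := by exact_mod_cast numShuffleSquares_mul_le m n
    have h2 := Real.log_le_log (mul_pos (hN0 m) (hN0 n)) h1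
    rw [Real.log_mul (hN0 m).ne' (hN0 n).ne'] at h2
    linarith
  have hupper : ∀ n, Real.log (numShuffleSquares k n) ≤ n * Real.log Λ := by
    intro n
    have h1 := Real.log_le_log (hN0 n) (upper_bound hk n)
    rwa [Real.log_pow] at h1
  have hbdd : BddBelow (Set.range fun n => u n / n) := by
    refine ⟨min (-Real.log Λ) 0, ?_⟩
    rintro _ ⟨n, rfl⟩
    simp only [hu]
    rcases Nat.eq_zero_or_pos n with rfl | hn
    · simp
    · have hn' : (0 : ℝ) < n := by exact_mod_cast hn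
      refine (min_le_left _ _).trans ?_
      rw [le_div_iff₀ hn']
      have := hupper n
      linarith
  have hlim := hsub.tendsto_lim hbdd
  refine ⟨Real.exp (-hsub.lim), Real.exp_pos _, ?_, ?_, ?_⟩
  · have h1 : Tendsto (fun n : ℕ => Real.exp (-(u n / n))) atTop (𝓝 (Real.exp (-hsub.lim))) :=
      (Real.continuous_exp.tendsto _).comp hlim.neg
    refine h1.congr ?_
    intro n
    rw [Real.rpow_def_of_pos (hN0 n)]
    congr 1
    simp only [hu]
    ring
  · intro n
    rcases Nat.eq_zero_or_pos n with rfl | hn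
    · simp only [pow_zero]
      have := upper_bound hk 0
      simpa using this
    · have hn' : (0 : ℝ) < n := by exact_mod_cast hn
      have h1 := hsub.lim_le_div hbdd hn.ne'
      rw [le_div_iff₀ hn'] at h1
      simp only [hu] at h1
      calc (numShuffleSquares k n : ℝ) = Real.exp (Real.log (numShuffleSquares k n)) :=
            (Real.exp_log (hN0 n)).symm
        _ ≤ Real.exp (n * (-hsub.lim)) := Real.exp_le_exp.mpr (by nlinarith)
        _ = Real.exp (-hsub.lim) ^ n := Real.exp_nat_mul _ _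
  · have h1 : -hsub.lim ≤ Real.log Λ := by
      have h2 : -Real.log Λ ≤ hsub.lim := by
        refine ge_of_tendsto hlim ?_
        filter_upwards [eventually_gt_atTop 0] with n hn
        have hn' : (0 : ℝ) < n := by exact_mod_cast hn
        rw [le_div_iff₀ hn']
        have := hupper n
        simp only [hu]
        linarith
      linarith
    calc Real.exp (-hsub.lim) ≤ Real.exp (Real.log Λ) := Real.exp_le_exp.mpr h1
      _ = Λ := Real.exp_log hΛ0

theorem le_of_pow_le {a b C : ℝ} (hb : 0 < b) (h : ∀ T : ℕ, a ^ T ≤ C * b ^ T) : a ≤ b := by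
  by_contra hab
  push Not at hab
  have hr : 1 < a / b := by rwa [one_lt_div hb]
  obtain ⟨T, hT⟩ := pow_unbounded_of_one_lt C hr
  have h1 := h T
  rw [div_pow, lt_div_iff₀ (pow_pos hb T)] at hT
  linarith

/-- the sum over all the sequences of lengths -/
theorem sum_comps {l j : ℕ} {b x : ℝ} (hbx : b * x = 1 - x) :
    ∑ a ∈ Fintype.piFinset (fun _ : Fin j => Icc 1 l), b ^ j * x ^ (∑ i, a i) =
      (1 - x ^ l) ^ j := by
  have h1 : ∀ a ∈ Fintype.piFinset (fun _ : Fin j => Icc 1 l),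
      b ^ j * x ^ (∑ i, a i) = ∏ i : Fin j, (b * x ^ (a i)) := by
    intro a _
    rw [prod_mul_distrib, prod_const, card_univ, Fintype.card_fin, prod_pow_eq_pow_sum]
  rw [sum_congr rfl h1, ← prod_univ_sum (fun _ : Fin j => Icc 1 l) (fun _ n => b * x ^ n)]
  rw [prod_const, card_univ, Fintype.card_fin]
  congr 1
  have h2 : ∀ l : ℕ, ∑ n ∈ Icc 1 l, b * x ^ n = 1 - x ^ l := by
    intro l
    induction l with
    | zero => simp
    | succ l ih =>
      rw [sum_Icc_succ_top (by omega), ih]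
      linear_combination x ^ l * hbx
  exact h2 l

/-- pigeonhole -/
theorem exists_comps {l j : ℕ} {b x : ℝ} (hbx : b * x = 1 - x) (hx0 : 0 < x) (hx : x < 1)
    (hl : 1 ≤ l) :
    ∃ s, j ≤ s ∧ (1 - x ^ l) ^ j ≤ (l * j + 1) * (((comps l j s).card : ℝ) * (b ^ j * x ^ s)) := by
  have hsum := sum_comps (l := l) (j := j) hbx
  have hmaps : ∀ a ∈ Fintype.piFinset (fun _ : Fin j => Icc 1 l),
      (∑ i, a i) ∈ range (l * j + 1) := by
    intro a ha
    rw [Fintype.mem_piFinset] at ha
    rw [mem_range]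
    have : ∑ i, a i ≤ ∑ _i : Fin j, l := sum_le_sum (fun i _ => (mem_Icc.mp (ha i)).2)
    simp only [sum_const, card_univ, Fintype.card_fin, smul_eq_mul] at this
    have h2 : j * l = l * j := by ring
    omega
  rw [← sum_fiberwise_of_maps_to hmaps] at hsum
  have h3 : ∀ s ∈ range (l * j + 1),
      ∑ a ∈ (Fintype.piFinset (fun _ : Fin j => Icc 1 l)).filter (fun a => ∑ i, a i = s),
        b ^ j * x ^ (∑ i, a i) = ((comps l j s).card : ℝ) * (b ^ j * x ^ s) := by
    intro s _
    have : ∀ a ∈ (Fintype.piFinset (fun _ : Fin j => Icc 1 l)).filter (fun a => ∑ i, a i = s),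
        b ^ j * x ^ (∑ i, a i) = b ^ j * x ^ s := by
      intro a ha
      rw [(mem_filter.mp ha).2]
    rw [sum_congr rfl this, sum_const, nsmul_eq_mul]
    rfl
  rw [sum_congr rfl h3] at hsum
  have hpos : 0 < (1 - x ^ l) ^ j := by
    apply pow_pos
    have := pow_lt_one₀ hx0.le hx (by omega : l ≠ 0)
    linarith
  by_contra hcon
  push Not at hcon
  have h4 : ∀ s ∈ range (l * j + 1), ((comps l j s).card : ℝ) * (b ^ j * x ^ s) <
      (1 - x ^ l) ^ j / (l * j + 1) := by
    intro s _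
    have hden : (0 : ℝ) < l * j + 1 := by positivity
    rw [lt_div_iff₀ hden, mul_comm]
    rcases Nat.lt_or_ge s j with hs | hs
    · have : comps l j s = ∅ := by
        rw [eq_empty_iff_forall_notMem]
        intro a ha
        obtain ⟨h5, h6⟩ := mem_comps ha
        have : ∑ _i : Fin j, 1 ≤ ∑ i, a i := sum_le_sum (fun i _ => (h5 i).1)
        simp at this
        omega
      rw [this]
      simpa using hpos
    · exact hcon s hs
  have h5 := sum_lt_sum_of_nonempty (s := range (l * j + 1)) (by simp) h4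
  rw [hsum, sum_const, card_range, nsmul_eq_mul] at h5
  have hden : ((l * j + 1 : ℕ) : ℝ) ≠ 0 := by positivity
  push_cast at h5 hden
  rw [mul_div_cancel₀ _ hden] at h5
  exact lt_irrefl _ h5

/-- The lower bound for the growth rate. -/
theorem growth_ge {c l : ℕ} (hc : 3 ≤ c) (hk : c + 2 < k) (hlc : l + 1 = c) {η : ℝ}
    (hη : ((c : ℝ) + 2) ^ 2 * (c * c + c) ≤ η * (k * (k - 1))) (hη1 : η ≤ 1)
    {L : ℝ} (hL0 : 0 < L) (hL : ∀ n : ℕ, (numShuffleSquares k n : ℝ) ≤ L ^ n) :
    (√k + √(k - 1 : ℝ)) ^ 2 * (1 - η) *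
      (1 - (√k / (√k + √(k - 1 : ℝ))) ^ l) ^ 2 ≤ L := by
  have hkc : (c : ℝ) + 2 < k := by exact_mod_cast hk
  have hc0 : (3 : ℝ) ≤ c := by exact_mod_cast hc
  have hu : 0 < √(k : ℝ) := Real.sqrt_pos.mpr (by linarith)
  have hv : 0 < √(k - 1 : ℝ) := Real.sqrt_pos.mpr (by linarith)
  have hu2 : √(k : ℝ) ^ 2 = k := Real.sq_sqrt (by linarith)
  have hv2 : √(k - 1 : ℝ) ^ 2 = k - 1 := Real.sq_sqrt (by linarith)
  set u := √(k : ℝ) with hu_def
  set v := √(k - 1 : ℝ) with hv_def
  have hl : 0 < u + v := by linarith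
  set x : ℝ := u / (u + v) with hx
  have hx0 : 0 < x := div_pos hu hl
  have hx1 : x < 1 := by rw [hx, div_lt_one hl]; linarith
  have hbx : v / u * x = 1 - x := by rw [hx]; field_simp; ring
  have hy0 : 0 < 1 - x ^ l := by
    have := pow_lt_one₀ hx0.le hx1 (by omega : l ≠ 0)
    linarith
  have hy1 : 1 - x ^ l ≤ 1 := by
    have := pow_nonneg hx0.le l
    linarith
  have hη0' : 0 ≤ 1 - η := by linarith
  set A : ℝ := (u + v) ^ 2 * (1 - η) * (1 - x ^ l) ^ 2 with hA
  have hA0 : 0 ≤ A := by positivity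
  -- for each `j`
  have hj : ∀ j : ℕ, 1 ≤ j → ∃ s, j ≤ s ∧ A ^ s ≤ (l * j + 1 : ℝ) ^ 2 * L ^ s := by
    intro j hj1
    obtain ⟨s, hs, h1⟩ := exists_comps (l := l) (j := j) hbx hx0 hx1 (by omega)
    refine ⟨s, hs, ?_⟩
    set N : ℝ := ((comps l j s).card : ℝ) with hN
    have hN0 : 0 ≤ N := by positivity
    -- G ≤ L ^ s
    have hG : N ^ 2 * ((k : ℝ) ^ (s - j) * (k - 1) ^ j) * (1 - η) ^ s ≤ L ^ s := by
      apply le_of_pow_le (C := L ^ (s + 2)) (pow_pos hL0 s)
      intro T
      have h2 := lower_bound (l := l) (j := j) (s := s) hc hk (by omega) hη hη1 T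
      refine h2.trans ((hL _).trans (le_of_eq ?_))
      rw [pow_add, pow_mul]
    -- lower bound for G
    have h3 : ((1 - x ^ l) ^ j) ^ 2 ≤ ((l * j + 1) * (N * ((v / u) ^ j * x ^ s))) ^ 2 :=
      pow_le_pow_left₀ (by positivity) h1 2
    have h4 : ((1 - x ^ l) ^ 2) ^ s ≤ ((1 - x ^ l) ^ j) ^ 2 := by
      rw [← pow_mul, ← pow_mul]
      apply pow_le_pow_of_le_one hy0.le hy1
      nlinarith
    have h5 : ((u + v) ^ 2) ^ s * ((v / u) ^ j * x ^ s) ^ 2 = (k : ℝ) ^ (s - j) * (k - 1) ^ j := by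
      obtain ⟨t, rfl⟩ : ∃ t, s = j + t := ⟨s - j, by omega⟩
      have e1 : (u + v) ^ (j + t) * x ^ (j + t) = u ^ (j + t) := by
        rw [← mul_pow, hx, mul_div_cancel₀ _ hl.ne']
      have e2 : u ^ (j + t) * (v / u) ^ j = u ^ t * v ^ j := by
        rw [pow_add, mul_right_comm, ← mul_pow, mul_div_cancel₀ _ hu.ne']
        ring
      have e3 : ((u + v) ^ 2) ^ (j + t) * ((v / u) ^ j * x ^ (j + t)) ^ 2 =
          (((u + v) ^ (j + t) * x ^ (j + t)) * (v / u) ^ j) ^ 2 := by
        rw [← pow_mul (u + v), mul_comm 2 (j + t), pow_mul]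
        generalize (u + v) ^ (j + t) = p
        ring
      rw [e3, e1, e2, Nat.add_sub_cancel_left, ← hv2, ← hu2]
      ring
    calc A ^ s = ((u + v) ^ 2) ^ s * (1 - η) ^ s * ((1 - x ^ l) ^ 2) ^ s := by
          rw [hA, mul_pow, mul_pow]
      _ ≤ ((u + v) ^ 2) ^ s * (1 - η) ^ s *
            ((l * j + 1) * (N * ((v / u) ^ j * x ^ s))) ^ 2 := by
          apply mul_le_mul_of_nonneg_left (h4.trans h3)
          positivity
      _ = (l * j + 1) ^ 2 * (N ^ 2 * (((u + v) ^ 2) ^ s * ((v / u) ^ j * x ^ s) ^ 2) *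
            (1 - η) ^ s) := by ring
      _ = (l * j + 1) ^ 2 * (N ^ 2 * ((k : ℝ) ^ (s - j) * (k - 1) ^ j) * (1 - η) ^ s) := by
          rw [h5]
      _ ≤ (l * j + 1) ^ 2 * L ^ s := by
          apply mul_le_mul_of_nonneg_left hG
          positivity
  -- let `j → ∞`
  by_contra hcon
  push Not at hcon
  have hr : 1 < A / L := by rwa [one_lt_div hL0]
  have hlim := tendsto_pow_const_div_const_pow_of_one_lt 2 hr
  have hl2 : (0 : ℝ) < ((l : ℝ) + 1) ^ 2 := by positivity
  have hev := (hlim.eventually (gt_mem_nhds (show (0 : ℝ) < 1 / ((l : ℝ) + 1) ^ 2 by positivity)))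
  obtain ⟨j, hj1, hj2⟩ := (hev.and (eventually_ge_atTop 1)).exists
  obtain ⟨s, hs, h1⟩ := hj j hj2
  have hj2' : (1 : ℝ) ≤ j := by exact_mod_cast hj2
  have h2 : (A / L) ^ s ≤ (l * j + 1 : ℝ) ^ 2 := by
    rw [div_pow, div_le_iff₀ (pow_pos hL0 s)]
    exact h1
  have h3 : (A / L) ^ j ≤ (A / L) ^ s := pow_le_pow_right₀ hr.le hs
  have h4 : (l * j + 1 : ℝ) ^ 2 ≤ ((l + 1) * j) ^ 2 := by
    apply pow_le_pow_left₀ (by positivity)
    nlinarith
  have hpos : 0 < (A / L) ^ j := pow_pos (by linarith) j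
  rw [div_lt_div_iff₀ hpos hl2] at hj1
  have h5 : ((l + 1 : ℝ) * j) ^ 2 = (j : ℝ) ^ 2 * (l + 1) ^ 2 := by ring
  linarith

end Pool.Agent.H41.Shuf
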