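import Pool.Agent.H41.Shuf.Pattern

open Finset

namespace Pool.Agent.H41.Shuf

section
variable {α : Type*} [DecidableEq α]

theorem endCfg_length {c : ℕ} : ∀ (l : List (Bool × α)) (C : Cfg α), Valid c C l →
    (endCfg c C l).q.length + (l.map Prod.fst).count false =
      C.q.length + (l.map Prod.fst).count true := by
  intro l
  induction l with
  | nil => intro C _; simp [endCfg]
  | cons a l ih =>
    intro C hv
    obtain ⟨s, x⟩ := a
    cases s with
    | true =>
      have := ih _ hv.2
      simp only [endCfg, List.map_cons]
      simp only [stepE, List.length_append, List.length_cons, List.length_nil] at this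
      simp
      simp only [stepE]
      omega
    | false =>
      have := ih _ hv.2
      have h1 := hv.1.2
      have h2 : 1 ≤ C.q.length := by
        cases hq : C.q with
        | nil => rw [hq] at h1; simp [letters] at h1
        | cons z q => simp
      simp only [endCfg, List.map_cons]
      simp only [stepD, List.length_tail] at this
      simp
      simp only [stepD]
      omega

theorem Valid.qrun {c : ℕ} : ∀ (l : List (Bool × α)) (C : Cfg α) (w : List α), Valid c C l →
    QRun (letters (endCfg c C l).q) w → QRun (letters C.q) (l.map Prod.snd ++ w) := by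
  intro l
  induction l with
  | nil => intro C w _ h; simpa [endCfg] using h
  | cons a l ih =>
    intro C w hv h
    obtain ⟨s, x⟩ := a
    cases s with
    | true =>
      simp only [endCfg] at h
      have := ih _ _ hv.2 h
      simp only [List.map_cons, List.cons_append]
      apply QRun.enq
      simpa [stepE, letters] using this
    | false =>
      simp only [endCfg] at h
      have := ih _ _ hv.2 h
      have h1 := hv.1.2
      simp only [List.map_cons, List.cons_append]
      cases hq : C.q with
      | nil => rw [hq] at h1; simp [letters] at h1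
      | cons z q =>
        rw [hq] at h1
        simp [letters] at h1
        subst h1
        have h2 : letters (z :: q) = z.1 :: letters q := by simp [letters]
        rw [h2]
        apply QRun.deq
        simpa [stepD, hq] using this

end

theorem blocked_zero {c : ℕ} : ∀ (P m : List Bool), (∀ x ∈ m, x = false) →
    Blocked c m false P = 0 := by
  intro P
  induction P with
  | nil => intro m _; simp [Blocked]
  | cons s P ih =>
    intro m hm
    cases s with
    | true =>
      simp only [Blocked]
      rw [if_neg, ih]
      · intro x hx
        rw [List.mem_append] at hx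
        rcases hx with hx | hx
        · exact hm x hx
        · simpa using hx
      · rintro (h | h)
        · simp at h
        · have := hm _ (List.mem_of_mem_take h)
          simp at this
    | false =>
      simp only [Blocked]
      apply ih
      intro x hx
      exact hm x (List.mem_of_mem_tail hx)

/-- alternating queue -/
def altQ (k : ℕ) (hk : 2 ≤ k) : ℕ → Bool → List (Fin k × Bool)
  | 0, _ => []
  | M + 1, true => (⟨1, by omega⟩, false) :: altQ k hk M false
  | M + 1, false => (⟨0, by omega⟩, false) :: altQ k hk M true

theorem altQ_length (k : ℕ) (hk : 2 ≤ k) : ∀ (M : ℕ) (b : Bool), (altQ k hk M b).length = M := by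
  intro M
  induction M with
  | zero => intro b; simp [altQ]
  | succ M ih => intro b; cases b <;> simp [altQ, ih]

theorem altQ_marks (k : ℕ) (hk : 2 ≤ k) : ∀ (M : ℕ) (b : Bool), ∀ p ∈ altQ k hk M b,
    p.2 = false := by
  intro M
  induction M with
  | zero => intro b; simp [altQ]
  | succ M ih =>
    intro b p hp
    cases b with
    | true =>
      simp only [altQ, List.mem_cons] at hp
      rcases hp with rfl | hp
      · rfl
      · exact ih _ p hp
    | false =>
      simp only [altQ, List.mem_cons] at hp
      rcases hp with rfl | hp
      · rfl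
      · exact ih _ p hp

theorem altQ_adj (k : ℕ) (hk : 2 ≤ k) : ∀ (M : ℕ) (b : Bool), Adj (altQ k hk M b) := by
  intro M
  induction M with
  | zero => intro b; simp [altQ, Adj]
  | succ M ih =>
    intro b
    have h := ih (!b)
    cases M with
    | zero => cases b <;> simp [altQ, Adj]
    | succ M =>
      cases b with
      | true =>
        simp only [altQ, Adj, List.isChain_cons_cons, Bool.not_true] at h ⊢
        exact ⟨by simp, h⟩
      | false =>
        simp only [altQ, Adj, List.isChain_cons_cons, Bool.not_false] at h ⊢
        exact ⟨by simp, h⟩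

/-- Any finite set of lists of the right length, accepted by the queue, gives a lower bound. -/
theorem card_le_numShuffleSquares {k n : ℕ} (X : Finset (List (Fin k)))
    (hX : ∀ w ∈ X, w.length = 2 * n ∧ QRun [] w) : X.card ≤ numShuffleSquares k n := by
  classical
  unfold numShuffleSquares
  rw [Nat.card_eq_fintype_card, Fintype.card_subtype]
  apply le_trans (b := ((univ.filter fun s : Fin (2 * n) → Fin k => IsShuffleSquare s).image
    List.ofFn).card)
  · apply card_le_card
    intro w hw
    obtain ⟨h1, h2⟩ := hX w hw
    rw [mem_image]
    refine ⟨fun i => w.get (i.cast h1.symm), ?_, ?_⟩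
    · rw [mem_filter]
      refine ⟨mem_univ _, ?_⟩
      rw [isShuffleSquare_iff]
      have : List.ofFn (fun i : Fin (2 * n) => w.get (i.cast h1.symm)) = w := by
        apply List.ext_get
        · simp [h1]
        · intro i hi hi'
          simp
      rw [this]
      exact h2
    · apply List.ext_get
      · simp [h1]
      · intro i hi hi'
        simp
  · exact card_image_le

/-- The main lower bound: with `s + 2 ≤ M`. -/
theorem lower_bound {k c l j s : ℕ} (hc : 3 ≤ c) (hk : c + 2 < k) (hlc : l < c) {η : ℝ}
    (hη : ((c : ℝ) + 2) ^ 2 * (c * c + c) ≤ η * (k * (k - 1))) (hη1 : η ≤ 1) (T : ℕ) :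
    (((comps l j s).card : ℝ) ^ 2 * ((k : ℝ) ^ (s - j) * (k - 1) ^ j) * (1 - η) ^ s) ^ T ≤
      numShuffleSquares k ((s + 2) + s * T) := by
  classical
  have hk2 : 2 ≤ k := by omega
  set M := s + 2 with hM
  set C0 : Cfg (Fin k) := ⟨altQ k hk2 M false, none, false, false, 0⟩ with hC0
  have hadj : Adj C0.q := altQ_adj k hk2 M false
  have hlen0 : C0.q.length = M := altQ_length k hk2 M false
  -- the set of runs
  set U : Finset (List (Bool × Fin k)) := (pats l j s T).biUnion (runs c C0) with hU
  have hUmem : ∀ r ∈ U, Valid c C0 r ∧ r.map Prod.fst ∈ pats l j s T := by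
    intro r hr
    rw [hU, mem_biUnion] at hr
    obtain ⟨P, hP, hr⟩ := hr
    obtain ⟨h1, h2⟩ := mem_runs P C0 r hr
    exact ⟨h1, by rw [h2]; exact hP⟩
  have hUcard : (U.card : ℝ) = ∑ P ∈ pats l j s T, ((runs c C0 P).card : ℝ) := by
    rw [hU, card_biUnion]
    · push_cast; rfl
    · intro P _ P' _ hne
      rw [Function.onFun, disjoint_left]
      intro r hr hr'
      exact hne ((mem_runs P C0 r hr).2.symm.trans (mem_runs P' C0 r hr').2)
  -- each pattern
  have hlow : ∀ P ∈ pats l j s T, ((k : ℝ) ^ (s - j) * (k - 1) ^ j) ^ T * (1 - η) ^ (s * T) ≤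
      (runs c C0 P).card := by
    intro P hP
    obtain ⟨p1, p2, p3, p4, p5⟩ := pats_props (k := k) (c := c) hlc T hP
    have h1 := card_runs_ge hc hk rfl hη hη1 P C0 (by
      rw [hlen0]
      exact p5 _ _ (by omega)) (Or.inl rfl)
    have h2 : Blocked c (C0.q.map Prod.snd) C0.used P = 0 := by
      apply blocked_zero
      intro x hx
      obtain ⟨p, hp, rfl⟩ := List.mem_map.mp hx
      exact altQ_marks k hk2 M false p hp
    rw [h2, pow_zero, mul_one, p3, p4] at h1
    exact h1
  have hUlow : (((comps l j s).card : ℝ) ^ 2 * ((k : ℝ) ^ (s - j) * (k - 1) ^ j) *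
      (1 - η) ^ s) ^ T ≤ U.card := by
    rw [hUcard]
    have h1 : ∑ P ∈ pats l j s T, ((k : ℝ) ^ (s - j) * (k - 1) ^ j) ^ T * (1 - η) ^ (s * T) ≤
        ∑ P ∈ pats l j s T, ((runs c C0 P).card : ℝ) := sum_le_sum hlow
    refine le_trans (le_of_eq ?_) h1
    rw [sum_const, nsmul_eq_mul, card_pats]
    push_cast
    rw [mul_pow, mul_pow, ← pow_mul (1 - η)]
    ring
  refine hUlow.trans ?_
  -- the words
  set W : List (Bool × Fin k) → List (Fin k) :=
    fun r => letters C0.q ++ (r.map Prod.snd ++ letters (endCfg c C0 r).q) with hW
  have hinj : Set.InjOn W U := by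
    intro r hr r' hr' h
    obtain ⟨v1, v2⟩ := hUmem r hr
    obtain ⟨v1', v2'⟩ := hUmem r' hr'
    have l1 : (r.map Prod.snd).length = (r'.map Prod.snd).length := by
      have e1 := (pats_props (k := k) (c := c) hlc T v2).2.1
      have e2 := (pats_props (k := k) (c := c) hlc T v2').2.1
      simp only [List.length_map] at e1 e2 ⊢
      rw [e1, e2]
    have h2 := List.append_cancel_left h
    obtain ⟨h3, h4⟩ := List.append_inj h2 l1
    exact run_unique hc r r' C0 hadj v1 v1' h3 h4
  have hWcard : (U.image W).card = U.card := card_image_of_injOn hinj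
  rw [← hWcard]
  exact_mod_cast card_le_numShuffleSquares (U.image W) (by
    intro w hw
    obtain ⟨r, hr, rfl⟩ := mem_image.mp hw
    obtain ⟨v1, v2⟩ := hUmem r hr
    obtain ⟨p1, p2, p3, p4, p5⟩ := pats_props (k := k) (c := c) hlc T v2
    constructor
    · have e1 := endCfg_length r C0 v1
      have e2 : (r.map Prod.fst).count true + (r.map Prod.fst).count false =
          (r.map Prod.fst).length := List.count_true_add_count_false _
      rw [p3, p2] at e2
      rw [p3, hlen0] at e1
      simp only [List.length_map] at p2
      simp only [hW, List.length_append, letters, List.length_map, hlen0, p2]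
      have e3 : 2 * s * T = 2 * (s * T) := by ring
      rw [e3] at e2 ⊢
      omega
    · have h1 := Valid.qrun r C0 (letters (endCfg c C0 r).q) v1 (QRun.deqAll _)
      simp only [hW]
      exact QRun.enqAll _ (by simpa using h1))

end Pool.Agent.H41.Shuf
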