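import Pool.Agent.H41.Shuf.Limit

open Finset Filter Topology

namespace Pool.Agent.H41.Shuf

/-- Bounds for the growth rate. -/
theorem growth_bounds {k : ℕ} (hk : 2 ≤ k) {L : ℝ} (hL0 : 0 < L)
    (hL : ∀ n : ℕ, (numShuffleSquares k n : ℝ) ≤ L ^ n) (hLu : L ≤ (√k + √(k - 1 : ℝ)) ^ 2) :
    0 < 4 * (k : ℝ) - 2 - L ∧ 4 * (k : ℝ) - 2 - L ≤ 20000 * (Nat.log 2 k : ℝ) ^ 4 / k := by
  have hk2 : (2 : ℝ) ≤ k := by exact_mod_cast hk
  have hk0 : (0 : ℝ) < k := by linarith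
  have hu : 0 < √(k : ℝ) := Real.sqrt_pos.mpr (by linarith)
  have hv : 0 < √(k - 1 : ℝ) := Real.sqrt_pos.mpr (by linarith)
  have hu2 : √(k : ℝ) ^ 2 = k := Real.sq_sqrt (by linarith)
  have hv2 : √(k - 1 : ℝ) ^ 2 = k - 1 := Real.sq_sqrt (by linarith)
  set m := Nat.log 2 k with hm
  have hm1 : 1 ≤ m := Nat.log_pos (by norm_num) hk
  have hm1' : (1 : ℝ) ≤ m := by exact_mod_cast hm1
  have hkm : k < 2 ^ (m + 1) := Nat.lt_pow_succ_log_self (by norm_num) k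
  have hm7 : (4 * m + 3 : ℝ) ^ 4 ≤ 2401 * (m : ℝ) ^ 4 := by
    have h1 : (4 * m + 3 : ℝ) ≤ 7 * m := by linarith
    have h2 : (4 * m + 3 : ℝ) ^ 4 ≤ (7 * m) ^ 4 := pow_le_pow_left₀ (by positivity) h1 4
    linarith [show (7 * (m : ℝ)) ^ 4 = 2401 * (m : ℝ) ^ 4 by ring]
  have hm4 : (1 : ℝ) ≤ (m : ℝ) ^ 4 := one_le_pow₀ hm1'
  by_cases hη : (4 * m + 3 : ℝ) ^ 4 ≤ k * (k - 1)
  swap
  · -- small `k`
    push Not at hη
    constructor
    · have huv : (√(k : ℝ) - √(k - 1 : ℝ)) * (√(k : ℝ) + √(k - 1 : ℝ)) = 1 := by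
        linear_combination hu2 - hv2
      have h1 : √(k : ℝ) - √(k - 1 : ℝ) ≠ 0 := by
        intro h; rw [h] at huv; simp at huv
      have h2 : 0 < (√(k : ℝ) - √(k - 1 : ℝ)) ^ 2 := by positivity
      nlinarith
    · rw [le_div_iff₀ hk0]
      have h1 : (4 * (k : ℝ) - 2 - L) * k ≤ 4 * k * k := by
        apply mul_le_mul_of_nonneg_right _ hk0.le
        linarith
      nlinarith
  set u := √(k : ℝ) with hu_def
  set v := √(k - 1 : ℝ) with hv_def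
  have huv : (u - v) * (u + v) = 1 := by nlinarith
  have hl : 0 < u + v := by linarith
  have hsq : 4 * (k : ℝ) - 2 - (u + v) ^ 2 = (u - v) ^ 2 := by nlinarith
  have huv0 : 0 < u - v := by
    by_contra h
    push Not at h
    have := mul_nonpos_of_nonpos_of_nonneg h hl.le
    linarith
  constructor
  · have : 0 < (u - v) ^ 2 := by positivity
    linarith
  -- the lower bound for `L`
  have hkbig : 4 * m + 1 + 2 < k := by
    have h1 : ((4 * m + 3 : ℝ)) ^ 4 < (k : ℝ) ^ 2 := by nlinarith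
    have h2 : ((4 * m + 3 : ℝ)) ^ 2 < k := by
      have h3 : (((4 * m + 3 : ℝ)) ^ 2) ^ 2 < (k : ℝ) ^ 2 := by
        rw [← pow_mul]; exact h1
      exact lt_of_pow_lt_pow_left₀ 2 hk0.le h3
    have h3 : (4 * m + 3 : ℝ) < k := by nlinarith
    have h4 : 4 * m + 3 < k := by exact_mod_cast h3
    omega
  set η : ℝ := (4 * m + 3 : ℝ) ^ 4 / (k * (k - 1)) with hη_def
  have hkk : (0 : ℝ) < k * (k - 1) := mul_pos hk0 (by linarith)
  have hη1 : η ≤ 1 := by rw [hη_def, div_le_one hkk]; exact hη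
  have hη0 : 0 ≤ η := by rw [hη_def]; positivity
  have hcond : (((4 * m + 1 : ℕ) : ℝ) + 2) ^ 2 * (((4 * m + 1 : ℕ) : ℝ) * ((4 * m + 1 : ℕ) : ℝ) +
      ((4 * m + 1 : ℕ) : ℝ)) ≤ η * (k * (k - 1)) := by
    rw [hη_def, div_mul_cancel₀ _ hkk.ne']
    push_cast
    have h0 : (0 : ℝ) ≤ m := by positivity
    have h1 : ((4 * m + 1 : ℝ) + 2) ^ 2 * ((4 * m + 1) * (4 * m + 1) + (4 * m + 1)) ≤
        ((4 * m + 1 : ℝ) + 2) ^ 2 * (4 * m + 3) ^ 2 := by
      apply mul_le_mul_of_nonneg_left _ (by positivity)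
      nlinarith
    refine h1.trans (le_of_eq ?_)
    ring
  have hge := growth_ge (c := 4 * m + 1) (l := 4 * m) (by omega) hkbig rfl hcond hη1 hL0 hL
  rw [← hu_def, ← hv_def] at hge
  set x : ℝ := u / (u + v) with hx
  have hx0 : 0 < x := div_pos hu hl
  have hx35 : x ≤ 3 / 5 := by
    rw [hx, div_le_iff₀ hl]
    have h1 : 2 / 3 * u ≤ v := by
      apply le_of_sq_le_sq _ hv.le
      rw [mul_pow, hu2, hv2]
      linarith
    linarith
  have hxl : x ^ (4 * m) ≤ 4 / k ^ 2 := by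
    have h1 : x ^ (4 * m) ≤ (1 / 4 : ℝ) ^ m := by
      rw [pow_mul]
      apply pow_le_pow_left₀ (by positivity)
      calc x ^ 4 ≤ (3 / 5) ^ 4 := pow_le_pow_left₀ hx0.le hx35 4
        _ ≤ 1 / 4 := by norm_num
    have h2 : (1 / 4 : ℝ) ^ m ≤ 4 / k ^ 2 := by
      rw [div_pow, one_pow, div_le_div_iff₀ (by positivity) (by positivity)]
      have h3 : (k : ℝ) ≤ 2 * 2 ^ m := by
        have : (k : ℝ) < 2 ^ (m + 1) := by exact_mod_cast hkm
        rw [pow_succ] at this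
        linarith
      have h4 : (4 : ℝ) ^ m = (2 ^ m) ^ 2 := by
        rw [← pow_mul, mul_comm, pow_mul]; norm_num
      rw [h4]
      nlinarith [pow_pos (show (0 : ℝ) < 2 by norm_num) m]
    exact h1.trans h2
  set y := x ^ (4 * m) with hy
  have hy0 : 0 ≤ y := by positivity
  have hkey : (u + v) ^ 2 - L ≤ 4 * k * (η + 2 * y) := by
    have h1 : 1 - η - 2 * y ≤ (1 - η) * (1 - y) ^ 2 := by nlinarith [mul_nonneg hη0 hy0, mul_nonneg (sub_nonneg.mpr hη1) (sq_nonneg y)]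
    have h2 : (u + v) ^ 2 * (1 - η - 2 * y) ≤ L := by
      refine le_trans ?_ hge
      rw [mul_assoc]
      exact mul_le_mul_of_nonneg_left h1 (by positivity)
    have h3 : (u + v) ^ 2 ≤ 4 * k := by nlinarith
    have h4 : (u + v) ^ 2 * (η + 2 * y) ≤ 4 * k * (η + 2 * y) :=
      mul_le_mul_of_nonneg_right h3 (by positivity)
    linarith
  have hη' : 4 * k * η ≤ 8 * (2401 * (m : ℝ) ^ 4) / k := by
    have h1 : 4 * k * η = 4 * (4 * m + 3 : ℝ) ^ 4 / (k - 1) := by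
      have : (k : ℝ) - 1 ≠ 0 := by linarith
      rw [hη_def]; field_simp
    rw [h1, div_le_div_iff₀ (by linarith) hk0]
    have h2 : (0 : ℝ) ≤ (4 * m + 3 : ℝ) ^ 4 := by positivity
    have h3 : (k : ℝ) ≤ 2 * (k - 1) := by linarith
    calc 4 * (4 * m + 3 : ℝ) ^ 4 * k ≤ 4 * (4 * m + 3 : ℝ) ^ 4 * (2 * (k - 1)) :=
          mul_le_mul_of_nonneg_left h3 (by positivity)
      _ = 8 * (4 * m + 3 : ℝ) ^ 4 * (k - 1) := by ring
      _ ≤ 8 * (2401 * (m : ℝ) ^ 4) * (k - 1) := by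
          apply mul_le_mul_of_nonneg_right _ (by linarith)
          linarith
  have hy' : 4 * k * (2 * y) ≤ 32 / k := by
    have h1 : 4 * (k : ℝ) * (2 * y) ≤ 4 * k * (2 * (4 / k ^ 2)) := by
      apply mul_le_mul_of_nonneg_left _ (by positivity)
      linarith
    refine h1.trans (le_of_eq ?_)
    field_simp
    ring
  have huv' : (u - v) ^ 2 ≤ 1 / k := by
    rw [le_div_iff₀ hk0, ← hu2]
    have h1 : (u - v) * u ≤ 1 := by nlinarith
    have h2 : 0 ≤ (u - v) * u := by positivity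
    calc (u - v) ^ 2 * u ^ 2 = ((u - v) * u) ^ 2 := by ring
      _ ≤ 1 := pow_le_one₀ h2 h1
  have hfin : 1 / (k : ℝ) + 8 * (2401 * (m : ℝ) ^ 4) / k + 32 / k ≤ 20000 * (m : ℝ) ^ 4 / k := by
    rw [← add_div, ← add_div]
    apply div_le_div_of_nonneg_right _ hk0.le
    linarith
  linarith

/-- The growth rates `L k` of the numbers of shuffle squares satisfy `L k = 4 k - 2 - o(1)`. -/
theorem main : ∃ L : ℕ → ℝ,
    (∀ k : ℕ, 1 ≤ k →
      Tendsto (fun n : ℕ => (numShuffleSquares k n : ℝ) ^ (1 / (n : ℝ))) atTop (𝓝 (L k))) ∧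
    Tendsto (fun k : ℕ => 4 * (k : ℝ) - 2 - L k) atTop (𝓝 0) ∧
    ∀ k : ℕ, 2 ≤ k → 0 < 4 * (k : ℝ) - 2 - L k ∧
      4 * (k : ℝ) - 2 - L k ≤ 20000 * (Real.logb 2 k) ^ 4 / k := by
  have hex : ∀ k : ℕ, ∃ L : ℝ, 1 ≤ k → (0 < L ∧
      Tendsto (fun n : ℕ => (numShuffleSquares k n : ℝ) ^ (1 / (n : ℝ))) atTop (𝓝 L) ∧
      (∀ n : ℕ, (numShuffleSquares k n : ℝ) ≤ L ^ n) ∧ L ≤ (√k + √(k - 1 : ℝ)) ^ 2) := by
    intro k
    by_cases hk : 1 ≤ k
    · obtain ⟨L, hL⟩ := exists_growth hk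
      exact ⟨L, fun _ => hL⟩
    · exact ⟨0, fun h => absurd h hk⟩
  choose L hL using hex
  have hb : ∀ k : ℕ, 2 ≤ k → 0 < 4 * (k : ℝ) - 2 - L k ∧
      4 * (k : ℝ) - 2 - L k ≤ 20000 * (Real.logb 2 k) ^ 4 / k := by
    intro k hk
    obtain ⟨h1, h2, h3, h4⟩ := hL k (by omega)
    obtain ⟨h5, h6⟩ := growth_bounds hk h1 h3 h4
    refine ⟨h5, h6.trans ?_⟩
    have hk0 : (0 : ℝ) < k := by
      have : (2 : ℝ) ≤ k := by exact_mod_cast hk
      linarith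
    apply div_le_div_of_nonneg_right _ hk0.le
    have h7 : (Nat.log 2 k : ℝ) ≤ Real.logb 2 k := by
      have := Real.natLog_le_logb k 2
      exact_mod_cast this
    have h8 : (Nat.log 2 k : ℝ) ^ 4 ≤ (Real.logb 2 k) ^ 4 :=
      pow_le_pow_left₀ (by positivity) h7 4
    linarith
  refine ⟨L, fun k hk => (hL k hk).2.1, ?_, hb⟩
  have hlim : Tendsto (fun k : ℕ => 20000 * (Real.logb 2 k) ^ 4 / (k : ℝ)) atTop (𝓝 0) := by
    have h1 : Tendsto (fun x : ℝ => Real.log x ^ 4 / x) atTop (𝓝 0) := by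
      have := (Real.isLittleO_pow_log_id_atTop (n := 4)).tendsto_div_nhds_zero
      simpa using this
    have h2 : Tendsto (fun k : ℕ => Real.log (k : ℝ) ^ 4 / (k : ℝ)) atTop (𝓝 0) :=
      h1.comp tendsto_natCast_atTop_atTop
    have h3 := h2.const_mul (20000 / (Real.log 2) ^ 4)
    rw [mul_zero] at h3
    refine h3.congr ?_
    intro k
    rw [Real.logb]
    ring
  refine squeeze_zero' ?_ ?_ hlim
  · filter_upwards [eventually_ge_atTop 2] with k hk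
    exact (hb k hk).1.le
  · filter_upwards [eventually_ge_atTop 2] with k hk
    exact (hb k hk).2

end Pool.Agent.H41.Shuf
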