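import Pool.Agent.H41.Shuf.Count

open Finset

namespace Pool.Agent.H41.Shuf

/-- sequence of steps with prescribed lengths of the stretches -/
def pat : List (ℕ × ℕ) → List Bool
  | [] => []
  | p :: L => List.replicate p.1 false ++ (List.replicate p.2 true ++ pat L)

/-- all the lengths are positive -/
def Pos (L : List (ℕ × ℕ)) : Prop := ∀ p ∈ L, 1 ≤ p.1 ∧ 1 ≤ p.2

/-- `R` does not begin with `true` -/
def NT (R : List Bool) : Prop := R.head? ≠ some true

theorem nt_pat {L : List (ℕ × ℕ)} (h : Pos L) : NT (pat L) := by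
  cases L with
  | nil => simp [NT, pat]
  | cons p L =>
    obtain ⟨h1, _⟩ := h p (by simp)
    obtain ⟨a, ha⟩ : ∃ a, p.1 = a + 1 := ⟨p.1 - 1, by omega⟩
    simp [NT, pat, ha, List.replicate_succ]

theorem nt_append {P R : List Bool} (hP : NT P) (hR : NT R) : NT (P ++ R) := by
  cases P with
  | nil => simpa using hR
  | cons x P => simpa [NT] using hP

theorem replicate_false_inj : ∀ (a a' : ℕ) (X X' : List Bool),
    List.replicate a false ++ true :: X = List.replicate a' false ++ true :: X' →
      a = a' ∧ X = X' := by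
  intro a
  induction a with
  | zero =>
    intro a' X X' h
    cases a' with
    | zero => simpa using h
    | succ a' => simp [List.replicate_succ] at h
  | succ a ih =>
    intro a' X X' h
    cases a' with
    | zero => simp [List.replicate_succ] at h
    | succ a' =>
      simp only [List.replicate_succ, List.cons_append, List.cons.injEq, true_and] at h
      obtain ⟨h1, h2⟩ := ih a' X X' h
      exact ⟨by omega, h2⟩

theorem replicate_true_inj : ∀ (a a' : ℕ) (X X' : List Bool), NT X → NT X' →
    List.replicate a true ++ X = List.replicate a' true ++ X' →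
      a = a' ∧ X = X' := by
  intro a
  induction a with
  | zero =>
    intro a' X X' hX hX' h
    cases a' with
    | zero => simpa using h
    | succ a' =>
      exfalso
      simp only [List.replicate_zero, List.nil_append, List.replicate_succ,
        List.cons_append] at h
      rw [h] at hX
      simp [NT] at hX
  | succ a ih =>
    intro a' X X' hX hX' h
    cases a' with
    | zero =>
      exfalso
      simp only [List.replicate_zero, List.nil_append, List.replicate_succ,
        List.cons_append] at h
      rw [← h] at hX'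
      simp [NT] at hX'
    | succ a' =>
      simp only [List.replicate_succ, List.cons_append, List.cons.injEq, true_and] at h
      obtain ⟨h1, h2⟩ := ih a' X X' hX hX' h
      exact ⟨by omega, h2⟩

theorem pat_inj : ∀ (L L' : List (ℕ × ℕ)), Pos L → Pos L' → pat L = pat L' → L = L' := by
  intro L
  induction L with
  | nil =>
    intro L' _ hp h
    cases L' with
    | nil => rfl
    | cons p L' =>
      exfalso
      obtain ⟨h1, _⟩ := hp p (by simp)
      obtain ⟨a, ha⟩ : ∃ a, p.1 = a + 1 := ⟨p.1 - 1, by omega⟩
      simp [pat, ha, List.replicate_succ] at h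
  | cons p L ih =>
    intro L' hp hp' h
    cases L' with
    | nil =>
      exfalso
      obtain ⟨h1, _⟩ := hp p (by simp)
      obtain ⟨a, ha⟩ : ∃ a, p.1 = a + 1 := ⟨p.1 - 1, by omega⟩
      simp [pat, ha, List.replicate_succ] at h
    | cons p' L' =>
      obtain ⟨h1, h2⟩ := hp p (by simp)
      obtain ⟨h1', h2'⟩ := hp' p' (by simp)
      obtain ⟨b, hb⟩ : ∃ b, p.2 = b + 1 := ⟨p.2 - 1, by omega⟩
      obtain ⟨b', hb'⟩ : ∃ b', p'.2 = b' + 1 := ⟨p'.2 - 1, by omega⟩
      have hP : Pos L := fun x hx => hp x (List.mem_cons_of_mem _ hx)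
      have hP' : Pos L' := fun x hx => hp' x (List.mem_cons_of_mem _ hx)
      simp only [pat, hb, hb', List.replicate_succ, List.cons_append] at h
      obtain ⟨e1, e2⟩ := replicate_false_inj _ _ _ _ h
      obtain ⟨e3, e4⟩ := replicate_true_inj _ _ _ _ (nt_pat hP) (nt_pat hP') e2
      have e5 := ih L' hP hP' e4
      subst e5
      congr 1
      exact Prod.ext e1 (by omega)

theorem wt_replicate_false (k a : ℕ) (R : List Bool) :
    wt k (List.replicate a false ++ R) = wt k R := by
  induction a with
  | zero => simp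
  | succ a ih => simpa [List.replicate_succ, wt] using ih

theorem wt_replicate_true (k b : ℕ) {R : List Bool} (hR : NT R) :
    wt k (List.replicate (b + 1) true ++ R) = (k : ℝ) ^ b * (k - 1) * wt k R := by
  induction b with
  | zero =>
    simp only [zero_add, List.replicate_one, List.cons_append, List.nil_append, wt, pow_zero,
      one_mul]
    rw [if_neg hR]
  | succ b ih =>
    rw [List.replicate_succ, List.cons_append]
    simp only [wt]
    rw [ih, if_pos (by simp [List.replicate_succ])]
    ring

theorem wt_pat (k : ℕ) : ∀ (L : List (ℕ × ℕ)), Pos L → ∀ {R : List Bool}, NT R →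
    wt k (pat L ++ R) = (k : ℝ) ^ ((L.map Prod.snd).sum - L.length) * (k - 1) ^ L.length *
      wt k R ∧ L.length ≤ (L.map Prod.snd).sum := by
  intro L
  induction L with
  | nil => intro _ R _; simp [pat]
  | cons p L ih =>
    intro hp R hR
    have hP : Pos L := fun x hx => hp x (List.mem_cons_of_mem _ hx)
    obtain ⟨h1, h2⟩ := hp p (by simp)
    obtain ⟨b, hb⟩ : ∃ b, p.2 = b + 1 := ⟨p.2 - 1, by omega⟩
    obtain ⟨i1, i2⟩ := ih hP hR
    constructor
    · simp only [pat, List.append_assoc]
      rw [wt_replicate_false, hb, wt_replicate_true k b (nt_append (nt_pat hP) hR), i1]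
      simp only [List.map_cons, List.sum_cons, List.length_cons, hb]
      have : b + 1 + (L.map Prod.snd).sum - (L.length + 1) =
          b + ((L.map Prod.snd).sum - L.length) := by omega
      rw [this, pow_add, pow_succ]
      ring
    · simp only [List.map_cons, List.sum_cons, List.length_cons]
      omega

theorem count_pat (L : List (ℕ × ℕ)) : (pat L).count true = (L.map Prod.snd).sum ∧
    (pat L).length = (L.map Prod.fst).sum + (L.map Prod.snd).sum := by
  induction L with
  | nil => simp [pat]
  | cons p L ih =>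
    simp only [pat, List.count_append, List.count_replicate, List.map_cons, List.sum_cons,
      List.length_append, List.length_replicate]
    rw [ih.1, ih.2]
    constructor
    · simp
    · ring

theorem good_replicate_false {c : ℕ} : ∀ (a h e : ℕ) {R : List Bool}, a ≤ h →
    Good c (h - a) 0 R → (1 ≤ a ∨ e = 0) → Good c h e (List.replicate a false ++ R) := by
  intro a
  induction a with
  | zero =>
    intro h e R _ hR he
    have : e = 0 := by omega
    subst this
    simpa using hR
  | succ a ih =>
    intro h e R hh hR _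
    rw [List.replicate_succ, List.cons_append]
    refine ⟨by omega, ih (h - 1) 0 (by omega) ?_ (Or.inr rfl)⟩
    have : h - 1 - a = h - (a + 1) := by omega
    rw [this]
    exact hR

theorem good_replicate_true {c : ℕ} : ∀ (b h e : ℕ) {R : List Bool}, 2 ≤ h → e + b < c →
    Good c (h + b) (e + b) R → Good c h e (List.replicate b true ++ R) := by
  intro b
  induction b with
  | zero => intro h e R _ _ hR; simpa using hR
  | succ b ih =>
    intro h e R hh he hR
    rw [List.replicate_succ, List.cons_append]
    refine ⟨hh, by omega, ih (h + 1) (e + 1) (by omega) (by omega) ?_⟩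
    have e1 : h + 1 + b = h + (b + 1) := by omega
    have e2 : e + 1 + b = e + (b + 1) := by omega
    rw [e1, e2]
    exact hR

theorem good_nt {c h e e' : ℕ} {R : List Bool} (hR : NT R) (hg : Good c h e R) :
    Good c h e' R := by
  cases R with
  | nil => trivial
  | cons x R =>
    cases x with
    | true => simp [NT] at hR
    | false => exact hg

theorem good_pat {c : ℕ} : ∀ (L : List (ℕ × ℕ)), Pos L → (∀ p ∈ L, p.2 < c) →
    ∀ (h e : ℕ) {R : List Bool}, NT R → (L.map Prod.fst).sum + 2 ≤ h →
    Good c (h + (L.map Prod.snd).sum - (L.map Prod.fst).sum) 0 R → Good c h e (pat L ++ R) := by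
  intro L
  induction L with
  | nil =>
    intro _ _ h e R hR _ hg
    simp only [pat, List.nil_append]
    exact good_nt hR (by simpa using hg)
  | cons p L ih =>
    intro hp hc h e R hR hh hg
    have hP : Pos L := fun x hx => hp x (List.mem_cons_of_mem _ hx)
    obtain ⟨h1, h2⟩ := hp p (by simp)
    simp only [List.map_cons, List.sum_cons] at hh hg
    simp only [pat, List.append_assoc]
    apply good_replicate_false _ _ _ (by omega) _ (Or.inl h1)
    apply good_replicate_true _ _ _ (by omega)
    · have := hc p (by simp)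
      omega
    · apply ih hP (fun x hx => hc x (List.mem_cons_of_mem _ hx)) _ _ hR (by omega)
      have : h - p.1 + p.2 + (L.map Prod.snd).sum - (L.map Prod.fst).sum =
        h + (p.2 + (L.map Prod.snd).sum) - (p.1 + (L.map Prod.fst).sum) := by omega
      rw [this]
      exact hg

/-- sequences of `j` lengths in `[1, l]` with sum `s` -/
def comps (l j s : ℕ) : Finset (Fin j → ℕ) :=
  (Fintype.piFinset fun _ : Fin j => Icc 1 l).filter (fun a => ∑ i, a i = s)

/-- one block -/
def blockPat {j : ℕ} (ab : (Fin j → ℕ) × (Fin j → ℕ)) : List Bool :=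
  pat (List.ofFn fun i => (ab.1 i, ab.2 i))

/-- the patterns of the blocks -/
def blocks (l j s : ℕ) : Finset (List Bool) :=
  (comps l j s ×ˢ comps l j s).image blockPat

theorem mem_comps {l j s : ℕ} {a : Fin j → ℕ} (h : a ∈ comps l j s) :
    (∀ i, 1 ≤ a i ∧ a i ≤ l) ∧ ∑ i, a i = s := by
  simp only [comps, mem_filter, Fintype.mem_piFinset, mem_Icc] at h
  exact h

theorem pos_ofFn {j : ℕ} {a b : Fin j → ℕ} (ha : ∀ i, 1 ≤ a i) (hb : ∀ i, 1 ≤ b i) :
    Pos (List.ofFn fun i => (a i, b i)) := by
  intro p hp
  rw [List.mem_ofFn] at hp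
  obtain ⟨i, rfl⟩ := hp
  exact ⟨ha i, hb i⟩

theorem card_blocks (l j s : ℕ) : (blocks l j s).card = (comps l j s).card ^ 2 := by
  rw [blocks, card_image_of_injOn, card_product, sq]
  intro ab hab ab' hab' h
  simp only [coe_product, Set.mem_prod, mem_coe] at hab hab'
  obtain ⟨ha, hb⟩ := hab
  obtain ⟨ha', hb'⟩ := hab'
  have h1 := pat_inj _ _
    (pos_ofFn (fun i => ((mem_comps ha).1 i).1) (fun i => ((mem_comps hb).1 i).1))
    (pos_ofFn (fun i => ((mem_comps ha').1 i).1) (fun i => ((mem_comps hb').1 i).1)) h
  have h2 := List.ofFn_injective h1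
  have h3 : ∀ i, (ab.1 i, ab.2 i) = (ab'.1 i, ab'.2 i) := fun i => congrFun h2 i
  apply Prod.ext
  · funext i
    exact (Prod.mk.inj (h3 i)).1
  · funext i
    exact (Prod.mk.inj (h3 i)).2

theorem block_props {k c l j s : ℕ} (hlc : l < c) {B : List Bool} (hB : B ∈ blocks l j s) :
    NT B ∧ B.length = 2 * s ∧ B.count true = s ∧ j ≤ s ∧
    (∀ R, NT R → wt k (B ++ R) = (k : ℝ) ^ (s - j) * (k - 1) ^ j * wt k R) ∧
    (∀ (R : List Bool) (h e : ℕ), NT R → s + 2 ≤ h → Good c h 0 R → Good c h e (B ++ R)) := by
  obtain ⟨ab, hab, rfl⟩ := mem_image.mp hB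
  rw [mem_product] at hab
  obtain ⟨ha, hb⟩ := hab
  have hpos := pos_ofFn (fun i => ((mem_comps ha).1 i).1) (fun i => ((mem_comps hb).1 i).1)
  set L := List.ofFn fun i => (ab.1 i, ab.2 i) with hL
  have hs1 : (L.map Prod.fst).sum = s := by
    rw [hL, List.map_ofFn, List.sum_ofFn]
    exact (mem_comps ha).2
  have hs2 : (L.map Prod.snd).sum = s := by
    rw [hL, List.map_ofFn, List.sum_ofFn]
    exact (mem_comps hb).2
  have hlen : L.length = j := by simp [hL]
  have hcnt := count_pat L
  refine ⟨nt_pat hpos, ?_, ?_, ?_, ?_, ?_⟩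
  · rw [blockPat, hcnt.2, hs1, hs2]; ring
  · rw [blockPat, hcnt.1, hs2]
  · have := (wt_pat k L hpos (R := []) (by simp [NT])).2
    rwa [hs2, hlen] at this
  · intro R hR
    have := (wt_pat k L hpos hR).1
    rw [hs2, hlen] at this
    exact this
  · intro R h e hR hh hg
    apply good_pat L hpos _ h e hR
    · rw [hs1]; exact hh
    · rw [hs1, hs2]
      have : h + s - s = h := by omega
      rw [this]
      exact hg
    · intro p hp
      rw [hL, List.mem_ofFn] at hp
      obtain ⟨i, rfl⟩ := hp
      exact lt_of_le_of_lt ((mem_comps hb).1 i).2 hlc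

/-- concatenations of `T` blocks -/
def pats (l j s : ℕ) : ℕ → Finset (List Bool)
  | 0 => {[]}
  | T + 1 => (blocks l j s ×ˢ pats l j s T).image (fun p => p.1 ++ p.2)

theorem pats_props {k c l j s : ℕ} (hlc : l < c) : ∀ (T : ℕ) {P : List Bool},
    P ∈ pats l j s T →
    NT P ∧ P.length = 2 * s * T ∧ P.count true = s * T ∧
    wt k P = ((k : ℝ) ^ (s - j) * (k - 1) ^ j) ^ T ∧
    (∀ (h e : ℕ), s + 2 ≤ h → Good c h e P) := by
  intro T
  induction T with
  | zero =>
    intro P hP
    simp only [pats, mem_singleton] at hP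
    subst hP
    refine ⟨by simp [NT], by simp, by simp, by simp [wt], ?_⟩
    intro h e _
    trivial
  | succ T ih =>
    intro P hP
    simp only [pats] at hP
    obtain ⟨⟨B, Q⟩, hBQ, rfl⟩ := mem_image.mp hP
    rw [mem_product] at hBQ
    obtain ⟨hB, hQ⟩ := hBQ
    obtain ⟨b1, b2, b3, b4, b5, b6⟩ := block_props (k := k) (c := c) hlc hB
    obtain ⟨i1, i2, i3, i4, i5⟩ := ih hQ
    simp only at i1 i2 i3 i4 i5 b1 b2 b3 b4 b5 b6 ⊢
    refine ⟨nt_append b1 i1, ?_, ?_, ?_, ?_⟩
    · rw [List.length_append, b2, i2]; ring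
    · rw [List.count_append, b3, i3]; ring
    · rw [b5 _ i1, i4, pow_succ]; ring
    · intro h e hh
      exact b6 _ _ _ i1 hh (i5 _ _ hh)

theorem card_pats {l j s : ℕ} (T : ℕ) :
    (pats l j s T).card = ((comps l j s).card ^ 2) ^ T := by
  induction T with
  | zero => simp [pats]
  | succ T ih =>
    rw [pats, card_image_of_injOn, card_product, card_blocks, ih]
    · exact (pow_succ' _ _).symm
    · rintro ⟨B, Q⟩ hBQ ⟨B', Q'⟩ hBQ' h
      simp only [coe_product, Set.mem_prod, mem_coe] at hBQ hBQ' h
      obtain ⟨b1, b2, _⟩ := block_props (k := 0) (c := l + 1) (by omega) hBQ.1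
      obtain ⟨b1', b2', _⟩ := block_props (k := 0) (c := l + 1) (by omega) hBQ'.1
      have := List.append_inj h (by rw [b2, b2'])
      exact Prod.ext this.1 this.2

end Pool.Agent.H41.Shuf
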