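import Pool.Agent.H41.Shuf.Defs

namespace Pool.Agent.H41.Shuf

variable {α : Type*}

/-- `Interl w u v`: the word `w` is an interleaving of `u` and `v`. -/
inductive Interl : List α → List α → List α → Prop
  | nil : Interl [] [] []
  | left (x : α) {w u v : List α} : Interl w u v → Interl (x :: w) (x :: u) v
  | right (x : α) {w u v : List α} : Interl w u v → Interl (x :: w) u (x :: v)

theorem Interl.symm {w u v : List α} (h : Interl w u v) : Interl w v u := by
  induction h with
  | nil => exact Interl.nil
  | left x _ ih => exact Interl.right x ih
  | right x _ ih => exact Interl.left x ih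

theorem Interl.length {w u v : List α} (h : Interl w u v) : w.length = u.length + v.length := by
  induction h with
  | nil => rfl
  | left x _ ih => simp [ih]; omega
  | right x _ ih => simp [ih]; omega

/-- `QRun q w`: the word `w` can be read from the queue `q`, ending with the empty queue; each
letter is either appended to the queue, or is equal to the front letter, which is removed. -/
inductive QRun : List α → List α → Prop
  | nil : QRun [] []
  | enq (x : α) {q w : List α} : QRun (q ++ [x]) w → QRun q (x :: w)
  | deq (x : α) {q w : List α} : QRun q w → QRun (x :: q) (x :: w)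

theorem QRun.of_shuf {w : List α} : ∀ {u q v : List α}, Interl w u v → v = q ++ u → QRun q w := by
  induction w with
  | nil =>
    intro u q v h hv
    cases h
    simp at hv
    subst hv
    exact QRun.nil
  | cons x w ih =>
    intro u q v h hv
    cases h with
    | left _ h' =>
      rename_i u'
      refine QRun.enq x (ih h' ?_)
      simp [hv]
    | right _ h' =>
      rename_i v'
      cases q with
      | nil =>
        simp at hv
        subst hv
        refine QRun.enq x (ih h'.symm ?_)
        simp
      | cons y q' =>
        simp at hv
        obtain ⟨rfl, rfl⟩ := hv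
        exact QRun.deq _ (ih h' rfl)

theorem QRun.exists_shuf {q w : List α} (h : QRun q w) : ∃ u, Interl w u (q ++ u) := by
  induction h with
  | nil => exact ⟨[], Interl.nil⟩
  | enq x _ ih =>
    obtain ⟨u, hu⟩ := ih
    refine ⟨x :: u, Interl.left x ?_⟩
    simpa using hu
  | deq x _ ih =>
    obtain ⟨u, hu⟩ := ih
    exact ⟨u, Interl.right x hu⟩

theorem qrun_iff_shuf (w : List α) : QRun [] w ↔ ∃ u, Interl w u u := by
  constructor
  · intro h
    obtain ⟨u, hu⟩ := h.exists_shuf
    exact ⟨u, by simpa using hu⟩
  · rintro ⟨u, hu⟩
    exact QRun.of_shuf hu (by simp)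

theorem subword_succ {m : ℕ} (s : Fin (m + 1) → α) (A : Finset (Fin (m + 1))) :
    subword s A = (if 0 ∈ A then [s 0] else []) ++
      subword (fun i => s i.succ) (Finset.univ.filter (fun i => i.succ ∈ A)) := by
  unfold subword
  rw [List.finRange_succ, List.filter_cons]
  split_ifs with h1 h2 h2
  · simp only [List.map_cons, List.cons_append, List.nil_append, List.filter_map, List.map_map]
    congr 2
    simp [Function.comp_def]
  · simp at h1; exact absurd h1 h2
  · simp at h1; exact absurd h2 h1
  · simp only [List.filter_map, List.map_map, List.nil_append]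
    congr 1
    simp [Function.comp_def]

theorem shuf_of_split {m : ℕ} : ∀ (s : Fin m → α) (A : Finset (Fin m)),
    Interl (List.ofFn s) (subword s A) (subword s Aᶜ) := by
  induction m with
  | zero =>
    intro s A
    simp [subword]
    exact Interl.nil
  | succ m ih =>
    intro s A
    rw [subword_succ s A, subword_succ s Aᶜ, List.ofFn_succ]
    have hc : (Finset.univ.filter (fun i : Fin m => i.succ ∈ Aᶜ)) =
        (Finset.univ.filter (fun i : Fin m => i.succ ∈ A))ᶜ := by
      ext i; simp
    rw [hc]
    by_cases h : (0 : Fin (m + 1)) ∈ A
    · simp only [h, if_true, Finset.mem_compl, not_true_eq_false, if_false, List.nil_append,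
        List.cons_append]
      exact Interl.left _ (ih _ _)
    · simp only [h, if_false, Finset.mem_compl, not_false_eq_true, if_true, List.nil_append,
        List.cons_append]
      exact Interl.right _ (ih _ _)

theorem split_of_shuf {m : ℕ} : ∀ (s : Fin m → α) (u v : List α),
    Interl (List.ofFn s) u v → ∃ A : Finset (Fin m), subword s A = u ∧ subword s Aᶜ = v := by
  induction m with
  | zero =>
    intro s u v h
    simp at h
    cases h
    exact ⟨∅, by simp [subword], by simp [subword]⟩
  | succ m ih =>
    intro s u v h
    rw [List.ofFn_succ] at h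
    cases h with
    | left _ h' =>
      rename_i u'
      obtain ⟨A, hA1, hA2⟩ := ih _ _ _ h'
      refine ⟨insert 0 (A.map (Fin.succEmb m)), ?_, ?_⟩
      · rw [subword_succ]
        have : (Finset.univ.filter (fun i : Fin m =>
            i.succ ∈ insert 0 (A.map (Fin.succEmb m)))) = A := by
          ext i; simp
        rw [this, hA1]
        simp
      · rw [subword_succ]
        have : (Finset.univ.filter (fun i : Fin m =>
            i.succ ∈ (insert 0 (A.map (Fin.succEmb m)))ᶜ)) = Aᶜ := by
          ext i; simp
        rw [this, hA2]
        simp
    | right _ h' =>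
      rename_i v'
      obtain ⟨A, hA1, hA2⟩ := ih _ _ _ h'
      refine ⟨A.map (Fin.succEmb m), ?_, ?_⟩
      · rw [subword_succ]
        have : (Finset.univ.filter (fun i : Fin m =>
            i.succ ∈ (A.map (Fin.succEmb m)))) = A := by
          ext i; simp
        rw [this, hA1]
        simp
      · rw [subword_succ]
        have : (Finset.univ.filter (fun i : Fin m =>
            i.succ ∈ (A.map (Fin.succEmb m))ᶜ)) = Aᶜ := by
          ext i; simp
        rw [this, hA2]
        simp

theorem isShuffleSquare_iff {m : ℕ} (s : Fin m → α) :
    IsShuffleSquare s ↔ QRun [] (List.ofFn s) := by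
  rw [qrun_iff_shuf]
  constructor
  · rintro ⟨A₁, A₂, hd, hu, he⟩
    have h2 : A₂ = A₁ᶜ := by
      have hu : ∀ i, i ∈ A₁ ∨ i ∈ A₂ := fun i => by
        rw [← Finset.mem_union, hu]; exact Finset.mem_univ i
      ext i
      rw [Finset.mem_compl]
      constructor
      · intro h h'
        exact (Finset.disjoint_left.mp hd h') h
      · intro h
        rcases hu i with h' | h'
        · exact absurd h' h
        · exact h'
    subst h2
    refine ⟨subword s A₁, ?_⟩
    have := shuf_of_split s A₁
    rwa [← he] at this
  · rintro ⟨u, hu⟩
    obtain ⟨A, hA1, hA2⟩ := split_of_shuf s u u hu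
    exact ⟨A, Aᶜ, disjoint_compl_right, Finset.union_compl A, hA1.trans hA2.symm⟩

/-- enqueueing a whole word -/
theorem QRun.enqAll (u : List α) : ∀ {q w : List α}, QRun (q ++ u) w → QRun q (u ++ w) := by
  induction u with
  | nil => intro q w h; simpa using h
  | cons x u ih =>
    intro q w h
    refine QRun.enq x (ih ?_)
    simpa using h

/-- dequeueing everything -/
theorem QRun.deqAll (q : List α) : QRun q q := by
  induction q with
  | nil => exact QRun.nil
  | cons x q ih => exact QRun.deq x ih

end Pool.Agent.H41.Shuf
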